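import Pool.Agent.Lib.H46R.Defs

/-! # H46R, C1: the form of two disjoint chains -/

set_option autoImplicit false

namespace H46R

open H46K

variable {V : Type} [Fintype V] [DecidableEq V]

theorem c1_first (L : V → V → ZMod 2) (P Q : Sym2 V → ZMod 2) :
    (∑ e : Sym2 V, ∑ f : Sym2 V, P e * Q f *
      (∑ i, ∑ j, if i ∈ e then (if j ∈ f then L i j else 0) else 0)) =
    ∑ i, ∑ j, bd P i * bd Q j * L i j := by
  have hR : ∀ i j : V, bd P i * bd Q j * L i j =
      ∑ e : Sym2 V, ∑ f : Sym2 V, P e * Q f *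
        (if i ∈ e then (if j ∈ f then L i j else 0) else 0) := by
    intro i j
    unfold bd
    rw [Finset.sum_mul_sum, Finset.sum_mul]
    refine Finset.sum_congr rfl fun e _ => ?_
    rw [Finset.sum_mul]
    refine Finset.sum_congr rfl fun f _ => ?_
    split_ifs <;> simp
  have hL : ∀ e f : Sym2 V, P e * Q f *
      (∑ i, ∑ j, if i ∈ e then (if j ∈ f then L i j else 0) else 0) =
      ∑ i, ∑ j, P e * Q f * (if i ∈ e then (if j ∈ f then L i j else 0) else 0) := by
    intro e f
    rw [Finset.mul_sum]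
    refine Finset.sum_congr rfl fun i _ => ?_
    rw [Finset.mul_sum]
  calc (∑ e : Sym2 V, ∑ f : Sym2 V, P e * Q f *
        (∑ i, ∑ j, if i ∈ e then (if j ∈ f then L i j else 0) else 0))
      = ∑ e : Sym2 V, ∑ f : Sym2 V, ∑ i, ∑ j, P e * Q f *
          (if i ∈ e then (if j ∈ f then L i j else 0) else 0) :=
        Finset.sum_congr rfl fun e _ => Finset.sum_congr rfl fun f _ => hL e f
    _ = ∑ e : Sym2 V, ∑ i, ∑ f : Sym2 V, ∑ j, P e * Q f *
          (if i ∈ e then (if j ∈ f then L i j else 0) else 0) :=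
        Finset.sum_congr rfl fun e _ => Finset.sum_comm
    _ = ∑ i, ∑ e : Sym2 V, ∑ f : Sym2 V, ∑ j, P e * Q f *
          (if i ∈ e then (if j ∈ f then L i j else 0) else 0) := Finset.sum_comm
    _ = ∑ i, ∑ e : Sym2 V, ∑ j, ∑ f : Sym2 V, P e * Q f *
          (if i ∈ e then (if j ∈ f then L i j else 0) else 0) :=
        Finset.sum_congr rfl fun i _ => Finset.sum_congr rfl fun e _ => Finset.sum_comm
    _ = ∑ i, ∑ j, ∑ e : Sym2 V, ∑ f : Sym2 V, P e * Q f *
          (if i ∈ e then (if j ∈ f then L i j else 0) else 0) :=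
        Finset.sum_congr rfl fun i _ => Finset.sum_comm
    _ = ∑ i, ∑ j, bd P i * bd Q j * L i j :=
        Finset.sum_congr rfl fun i _ => Finset.sum_congr rfl fun j _ => (hR i j).symm

theorem c1_second (w : Sym2 V → V → ZMod 2) (P Q : Sym2 V → ZMod 2) :
    (∑ e : Sym2 V, ∑ f : Sym2 V, P e * Q f * (∑ j, if j ∈ f then w e j else 0)) =
    ∑ j, bd Q j * ∑ e, P e * w e j := by
  have hR : ∀ j : V, bd Q j * ∑ e, P e * w e j =
      ∑ e : Sym2 V, ∑ f : Sym2 V, P e * Q f * (if j ∈ f then w e j else 0) := by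
    intro j
    unfold bd
    rw [Finset.sum_mul_sum, Finset.sum_comm]
    refine Finset.sum_congr rfl fun e _ => ?_
    refine Finset.sum_congr rfl fun f _ => ?_
    split_ifs
    · ring
    · simp
  calc (∑ e : Sym2 V, ∑ f : Sym2 V, P e * Q f * (∑ j, if j ∈ f then w e j else 0))
      = ∑ e : Sym2 V, ∑ f : Sym2 V, ∑ j, P e * Q f * (if j ∈ f then w e j else 0) :=
        Finset.sum_congr rfl fun e _ => Finset.sum_congr rfl fun f _ => by rw [Finset.mul_sum]
    _ = ∑ e : Sym2 V, ∑ j, ∑ f : Sym2 V, P e * Q f * (if j ∈ f then w e j else 0) :=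
        Finset.sum_congr rfl fun e _ => Finset.sum_comm
    _ = ∑ j, ∑ e : Sym2 V, ∑ f : Sym2 V, P e * Q f * (if j ∈ f then w e j else 0) :=
        Finset.sum_comm
    _ = ∑ j, bd Q j * ∑ e, P e * w e j := Finset.sum_congr rfl fun j _ => (hR j).symm

/-- Proof. `bil E P Q + bil E Q P = ∑ e, ∑ f, P e * Q f * (E e f + E f e)` (rename and exchange the
sums of the second one: `H46K.bil_swap` or `Finset.sum_comm`). If `P e * Q f ≠ 0` then `e`, `f` are
edges (`hP`, `hQ`) without common vertex (`hd`), so `h.form` applies; if it is zero both sides are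
zero. So the sum is `∑ e, ∑ f, P e * Q f * (first + second + third)`. Split (`mul_add`,
`Finset.sum_add_distrib`).
First: `∑ e ∑ f P e Q f ∑ i ∑ j [i in e][j in f] L i j = ∑ i ∑ j (∑ e [i in e] P e)(∑ f [j in f] Q f) L i j`
(`Finset.sum_comm` several times, `Finset.sum_mul_sum`, `bd` is the sum `∑ e, if v ∈ e then P e else 0`).
Second: `∑ e ∑ f P e Q f ∑ j [j in f] w e j = ∑ j (∑ f [j in f] Q f) (∑ e P e w e j)`.
Third: the same with the roles exchanged. -/
theorem ls_chain {G : SimpleGraph V} {E : Sym2 V → Sym2 V → ZMod 2} {L : V → V → ZMod 2}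
    {w : Sym2 V → V → ZMod 2} (h : LS G E L w) (P Q : Sym2 V → ZMod 2)
    (hP : ∀ e, P e ≠ 0 → e ∈ G.edgeSet) (hQ : ∀ e, Q e ≠ 0 → e ∈ G.edgeSet) (hd : VDisj P Q) :
    bil E P Q + bil E Q P = (∑ i, ∑ j, bd P i * bd Q j * L i j) +
      (∑ j, bd Q j * ∑ e, P e * w e j) + ∑ i, bd P i * ∑ f, Q f * w f i := by
  have h1 : bil E P Q + bil E Q P =
      ∑ e : Sym2 V, ∑ f : Sym2 V, P e * Q f * (E e f + E f e) := by
    have h2 : bil E Q P = ∑ e : Sym2 V, ∑ f : Sym2 V, P e * Q f * E f e := by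
      unfold bil
      rw [Finset.sum_comm]
      refine Finset.sum_congr rfl fun e _ => ?_
      refine Finset.sum_congr rfl fun f _ => ?_
      ring
    rw [h2]
    unfold bil
    rw [← Finset.sum_add_distrib]
    refine Finset.sum_congr rfl fun e _ => ?_
    rw [← Finset.sum_add_distrib]
    refine Finset.sum_congr rfl fun f _ => ?_
    ring
  have h3 : ∀ e f : Sym2 V, P e * Q f * (E e f + E f e) =
      P e * Q f * (∑ i, ∑ j, if i ∈ e then (if j ∈ f then L i j else 0) else 0) +
      P e * Q f * (∑ j, if j ∈ f then w e j else 0) +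
      Q f * P e * (∑ i, if i ∈ e then w f i else 0) := by
    intro e f
    by_cases hPe : P e = 0
    · rw [hPe]; ring
    by_cases hQf : Q f = 0
    · rw [hQf]; ring
    rw [h.form e (hP e hPe) f (hQ f hQf) (fun v hv => hd e f hPe hQf v hv)]
    ring
  rw [h1, ← c1_first L P Q, ← c1_second w P Q, ← c1_second w Q P]
  rw [Finset.sum_comm (f := fun (e : Sym2 V) (f : Sym2 V) =>
    Q e * P f * (∑ j, if j ∈ f then w e j else 0))]
  rw [← Finset.sum_add_distrib, ← Finset.sum_add_distrib]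
  refine Finset.sum_congr rfl fun e _ => ?_
  rw [← Finset.sum_add_distrib, ← Finset.sum_add_distrib]
  exact Finset.sum_congr rfl fun f _ => h3 e f

end H46R
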