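import Pool.Agent.Lib.H46R.C1

/-! # H46R, C2: linking systems pull back -/

set_option autoImplicit false

namespace H46R

open H46K

variable {V W : Type} [Fintype V] [DecidableEq V] [Fintype W] [DecidableEq W]

/-- Proof. `∑ i, bd (P h) i * F i = ∑ i, (∑ u, [u in h][i = r u]) * F i = ∑ u, [u in h] F (r u)`
(`Finset.sum_mul`, `Finset.sum_comm`, `Finset.sum_ite_eq`). -/
theorem bd_sum {H : SimpleGraph W} {G : SimpleGraph V} {r : W → V} {P : Sym2 W → Sym2 V → ZMod 2}
    (hm : DCM H G r P) (h : Sym2 W) (hh : h ∈ H.edgeSet) (F : V → ZMod 2) :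
    ∑ i, bd (P h) i * F i = ∑ u, if u ∈ h then F (r u) else 0 := by
  simp only [hm.bdry h hh, Finset.sum_mul]
  rw [Finset.sum_comm]
  refine Finset.sum_congr rfl fun u _ => ?_
  by_cases hu : u ∈ h
  · simp [hu]
  · simp [hu]

/-- Proof. `anti`: `hL.anti` with `hm.inj`. `form`: for disjoint edges `h`, `h'` of `H`,
`pull E P h h' + pull E P h' h = bil E (P h) (P h') + bil E (P h') (P h)`, apply `ls_chain hL` with
`hm.supp`, `hm.disj`, and rewrite the three sums with `bd_sum` (the first one twice: bring it to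
the form `∑ i, bd (P h) i * ∑ j, bd (P h') j * L i j`). -/
theorem ls_pull {H : SimpleGraph W} {G : SimpleGraph V} {r : W → V}
    {P : Sym2 W → Sym2 V → ZMod 2} {E : Sym2 V → Sym2 V → ZMod 2} {L : V → V → ZMod 2}
    {w : Sym2 V → V → ZMod 2} (hL : LS G E L w) (hm : DCM H G r P) :
    LS H (pull E P) (fun u v => L (r u) (r v)) (fun h u => ∑ e, P h e * w e (r u)) := by
  refine ⟨fun u v huv => hL.anti _ _ (hm.inj.ne huv), fun h hh h' hh' hd => ?_⟩
  have h1 := ls_chain hL (P h) (P h') (hm.supp h hh) (hm.supp h' hh') (hm.disj h hh h' hh' hd)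
  have e1 : (∑ i, ∑ j, bd (P h) i * bd (P h') j * L i j) =
      ∑ i, ∑ j, if i ∈ h then (if j ∈ h' then L (r i) (r j) else 0) else 0 := by
    have e2 : ∀ i, (∑ j, bd (P h) i * bd (P h') j * L i j) =
        bd (P h) i * ∑ u, if u ∈ h' then L i (r u) else 0 := by
      intro i
      rw [← bd_sum hm h' hh' (fun j => L i j), Finset.mul_sum]
      refine Finset.sum_congr rfl fun j _ => ?_
      ring
    rw [Finset.sum_congr rfl fun i _ => e2 i,
      bd_sum hm h hh (fun i => ∑ u, if u ∈ h' then L i (r u) else 0)]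
    refine Finset.sum_congr rfl fun i _ => ?_
    by_cases hi : i ∈ h
    · simp [hi]
    · simp [hi]
  rw [e1, bd_sum hm h' hh' (fun j => ∑ e, P h e * w e j),
    bd_sum hm h hh (fun i => ∑ e, P h' e * w e i)] at h1
  exact h1

end H46R
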