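import Pool.Agent.Lib.H46R.Defs

/-! # H46R, C3: odd pairs of chains are pushed forward -/

set_option autoImplicit false

namespace H46R

open H46K

variable {V W : Type} [Fintype V] [DecidableEq V] [Fintype W] [DecidableEq W]

/-- the image of a chain -/
def push (P : Sym2 W → Sym2 V → ZMod 2) (ζ : Sym2 W → ZMod 2) (e : Sym2 V) : ZMod 2 :=
  ∑ h, ζ h * P h e

/-- a nonzero value of `push` comes from some `h` (`Finset.exists_ne_zero_of_sum_ne_zero`). -/
theorem push_ne {P : Sym2 W → Sym2 V → ZMod 2} {ζ : Sym2 W → ZMod 2} {e : Sym2 V}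
    (h : push P ζ e ≠ 0) : ∃ x, ζ x ≠ 0 ∧ P x e ≠ 0 := by
  obtain ⟨x, -, hx⟩ := Finset.exists_ne_zero_of_sum_ne_zero h
  exact ⟨x, left_ne_zero_of_mul hx, right_ne_zero_of_mul hx⟩

/-- Proof. Support: `push_ne`, `hζ.1`, `hm.supp`. Boundary at `v`:
`∑ e, [v in e] ∑ h, ζ h * P h e = ∑ h, ζ h * bd (P h) v` (`sum_comm`; `bd` unfolded), for `ζ h ≠ 0`
`h` is an edge and `hm.bdry` gives `∑ h, ζ h * ∑ u, [u in h][v = r u]
= ∑ u, [v = r u] ∑ h, [u in h] ζ h = 0` by `hζ.2 u`. -/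
theorem push_isCyc {H : SimpleGraph W} {G : SimpleGraph V} {r : W → V}
    {P : Sym2 W → Sym2 V → ZMod 2} (hm : DCM H G r P) {ζ : Sym2 W → ZMod 2} (hζ : IsCyc H ζ) :
    IsCyc G (push P ζ) := by
  refine ⟨fun e he => ?_, fun v => ?_⟩
  · obtain ⟨x, h1, h2⟩ := push_ne he
    exact hm.supp x (hζ.1 x h1) e h2
  · have h1 : ∑ e : Sym2 V, (if v ∈ e then push P ζ e else 0) = ∑ h, ζ h * bd (P h) v := by
      unfold push bd
      simp_rw [Finset.mul_sum]
      rw [Finset.sum_comm]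
      refine Finset.sum_congr rfl fun e _ => ?_
      split_ifs with hv
      · rfl
      · simp
    have h2 : ∀ h, ζ h * bd (P h) v = ∑ u, if v = r u then (if u ∈ h then ζ h else 0) else 0 := by
      intro h
      by_cases hz : ζ h = 0
      · simp [hz]
      · rw [hm.bdry h (hζ.1 h hz), Finset.mul_sum]
        refine Finset.sum_congr rfl fun u _ => ?_
        split_ifs <;> simp
    rw [h1, Finset.sum_congr rfl fun h _ => h2 h, Finset.sum_comm]
    refine Finset.sum_eq_zero fun u _ => ?_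
    by_cases hv : v = r u
    · simp only [if_pos hv]
      exact hζ.2 u
    · simp [if_neg hv]

/-- Proof: expand `bil`, `push`, `pull` and exchange the sums. -/
theorem bil_push (E : Sym2 V → Sym2 V → ZMod 2) (P : Sym2 W → Sym2 V → ZMod 2)
    (ζ ζ' : Sym2 W → ZMod 2) : bil E (push P ζ) (push P ζ') = bil (pull E P) ζ ζ' := by
  unfold bil pull push bil
  have h1 : ∀ e e' : Sym2 V, (∑ h, ζ h * P h e) * (∑ h', ζ' h' * P h' e') * E e e' =
      ∑ h, ∑ h', ζ h * ζ' h' * (P h e * P h' e' * E e e') := by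
    intro e e'
    rw [Finset.sum_mul_sum, Finset.sum_mul]
    refine Finset.sum_congr rfl fun h _ => ?_
    rw [Finset.sum_mul]
    refine Finset.sum_congr rfl fun h' _ => ?_
    ring
  simp_rw [h1, Finset.mul_sum]
  calc ∑ e : Sym2 V, ∑ e' : Sym2 V, ∑ h, ∑ h', ζ h * ζ' h' * (P h e * P h' e' * E e e')
      = ∑ e : Sym2 V, ∑ h, ∑ e' : Sym2 V, ∑ h', ζ h * ζ' h' * (P h e * P h' e' * E e e') :=
        Finset.sum_congr rfl fun e _ => Finset.sum_comm
    _ = ∑ h, ∑ e : Sym2 V, ∑ e' : Sym2 V, ∑ h', ζ h * ζ' h' * (P h e * P h' e' * E e e') :=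
        Finset.sum_comm
    _ = ∑ h, ∑ e : Sym2 V, ∑ h', ∑ e' : Sym2 V, ζ h * ζ' h' * (P h e * P h' e' * E e e') :=
        Finset.sum_congr rfl fun h _ => Finset.sum_congr rfl fun e _ => Finset.sum_comm
    _ = ∑ h, ∑ h', ∑ e : Sym2 V, ∑ e' : Sym2 V, ζ h * ζ' h' * (P h e * P h' e' * E e e') :=
        Finset.sum_congr rfl fun h _ => Finset.sum_comm

/-- Proof. Take the images `push P ζ`, `push P ζ'`; `VDisj` from `push_ne`, `hm.disj` and the
disjointness of `ζ`, `ζ'`. -/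
theorem hasOddChains_push {H : SimpleGraph W} {G : SimpleGraph V} {r : W → V}
    {P : Sym2 W → Sym2 V → ZMod 2} {E : Sym2 V → Sym2 V → ZMod 2} (hm : DCM H G r P)
    (h : HasOddChains H (pull E P)) : HasOddChains G E := by
  obtain ⟨z, z', h1, h2, h3, h4⟩ := h
  refine ⟨push P z, push P z', push_isCyc hm h1, push_isCyc hm h2, ?_, ?_⟩
  · intro e e' he he' v hv hv'
    obtain ⟨x, hx1, hx2⟩ := push_ne he
    obtain ⟨y, hy1, hy2⟩ := push_ne he'
    exact hm.disj x (h1.1 x hx1) y (h2.1 y hy1) (fun u hu hu' => h3 x y hx1 hy1 u hu hu') e e' hx2 hy2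
      v hv hv'
  · rw [bil_push]
    exact h4

end H46R
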