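import Pool.Agent.Lib.H46R.Defs

/-! # H46R, C4: walk maps give chain maps -/

set_option autoImplicit false

namespace H46R

open H46K

variable {V W : Type} [Fintype V] [DecidableEq V] [Fintype W] [DecidableEq W]

/-- Proof. Take `r`, `S` from `hw`. For `h` in the edge set of `H` let `(a, b) = Quot.out h`
(so `s(a, b) = h`, `H.Adj a b`), choose the walk `p h` from `r a` to `r b` inside `S h`, and put
`P h := chi (p h)`; for other `h` put `P h := 0`. (Prove `∀ h, ∃ c : Sym2 V → ZMod 2, h ∈ H.edgeSet →
(support in edges and in S h) ∧ (boundary formula)` by `Sym2.ind` and use `choose`: for `h = s(a, b)`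
take `c = chi p`.) Support: `H46K.mem_edges_of_chi_ne`, `Walk.edges_subset_edgeSet`; both ends of an
edge of the walk are in its support (`Walk.fst_mem_support_of_mem_edges` etc.), so in `S h`.
Boundary: `H46K.chi_boundary`; `∑ u, [u in s(a,b)] [v = r u] = [v = r a] + [v = r b]` as `a ≠ b`.
Disjointness: a common vertex of an edge of `P h` and an edge of `P h'` would be in
`S h ∩ S h'`. -/
theorem dcm_of_walkMap {H : SimpleGraph W} {G : SimpleGraph V} (hw : WalkMap H G) :
    ∃ r P, DCM H G r P := by
  classical
  obtain ⟨r, S, hr, hp, hS⟩ := hw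
  have key : ∀ h : Sym2 W, ∃ c : Sym2 V → ZMod 2, h ∈ H.edgeSet →
      (∀ e, c e ≠ 0 → e ∈ G.edgeSet ∧ ∀ v ∈ e, v ∈ S h) ∧
      ∀ v, bd c v = ∑ u, if u ∈ h then (if v = r u then 1 else 0) else 0 := by
    refine Sym2.ind fun a b => ?_
    by_cases hab : H.Adj a b
    · obtain ⟨p, hp'⟩ := hp a b hab
      refine ⟨chi p, fun _ => ⟨fun e he => ?_, fun v => ?_⟩⟩
      · have he' := mem_edges_of_chi_ne he
        refine ⟨p.edges_subset_edgeSet he', fun v hv => hp' v ?_⟩
        induction e using Sym2.ind with
        | _ x y =>
          rcases Sym2.mem_iff.1 hv with rfl | rfl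
          · exact p.fst_mem_support_of_mem_edges he'
          · exact p.snd_mem_support_of_mem_edges he'
      · have h1 := chi_boundary p v
        unfold bd
        rw [h1]
        have hne : a ≠ b := hab.ne
        have h2 : ∀ u : W, (if u ∈ s(a, b) then (if v = r u then (1 : ZMod 2) else 0) else 0) =
            (if u = a then (if v = r a then 1 else 0) else 0) +
              (if u = b then (if v = r b then 1 else 0) else 0) := by
          intro u
          by_cases hua : u = a
          · subst hua
            simp [hne]
          · by_cases hub : u = b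
            · subst hub
              simp [hua]
            · simp [hua, hub]
        rw [Finset.sum_congr rfl fun u _ => h2 u, Finset.sum_add_distrib]
        simp
    · exact ⟨0, fun h => absurd h hab⟩
  choose P hP using key
  refine ⟨r, P, hr, fun h hh e he => ((hP h hh).1 e he).1, fun h hh v => (hP h hh).2 v, ?_⟩
  intro h hh h' hh' hd e e' he he' v hv hv'
  exact Set.disjoint_left.1 (hS h hh h' hh' hd) (((hP h hh).1 e he).2 v hv)
    (((hP h' hh').1 e' he').2 v hv')

end H46R
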