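import Pool.Agent.Lib.H46R.Defs
import Pool.Agent.Lib.H46K.A2

/-! # H46R, C5: from chains to cycles -/

set_option autoImplicit false

namespace H46R

open H46K H97G

variable {V : Type} [Fintype V] [DecidableEq V]

theorem c5_main {G : SimpleGraph V}
    {E : Sym2 V → Sym2 V → ZMod 2} (N : ℕ) :
    ∀ z z', (Finset.univ.filter fun e ↦ z e ≠ 0).card +
        (Finset.univ.filter fun e ↦ z' e ≠ 0).card ≤ N →
      IsCyc G z → IsCyc G z' → VDisj z z' → bil E z z' = 1 →
      ∃ (a : V) (c₁ : G.Walk a a) (b : V) (c₂ : G.Walk b b),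
      c₁.IsCycle ∧ c₂.IsCycle ∧ List.Disjoint c₁.support c₂.support ∧
        bil E (chi c₁) (chi c₂) = 1 := by
  induction N with
  | zero =>
    intro z z' hN hz hz' hd hb
    have h1 : bil E z z' ≠ 0 := by rw [hb]; decide
    obtain ⟨⟨e, he⟩, -⟩ := exists_ne_of_bil_ne h1
    exfalso
    have h2 : 0 < (Finset.univ.filter fun e ↦ z e ≠ 0).card :=
      Finset.card_pos.2 ⟨e, by simp [he]⟩
    omega
  | succ N ih =>
    intro z z' hN hz hz' hd hb
    have h1 : bil E z z' ≠ 0 := by rw [hb]; decide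
    obtain ⟨he, he'⟩ := exists_ne_of_bil_ne h1
    obtain ⟨a, c, hc, hcz⟩ := exists_cycle_of_isCyc hz he
    obtain ⟨b, c', hc', hcz'⟩ := exists_cycle_of_isCyc hz' he'
    by_cases hzc : z = chi c
    · by_cases hzc' : z' = chi c'
      · rw [hzc, hzc'] at hd hb
        exact ⟨a, c, b, c', hc, hc', disjoint_of_vdisj hc hc' hd, hb⟩
      · obtain ⟨w, hw, hwz, hcz2, hsum, hl1, hl2⟩ := A5_red hz' hc' hcz' hzc'
        have hb2 : bil E z (chi c') + bil E z w = 1 := by
          rw [← bil_add_right, ← hsum]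
          exact hb
        have hd1 : VDisj z (chi c') := fun e e' h1 h2 ↦ hd e e' h1 (hcz2 e' h2)
        have hd2 : VDisj z w := fun e e' h1 h2 ↦ hd e e' h1 (hwz e' h2)
        rcases A5_split hb2 with h3 | h3
        · exact ih z (chi c') (by omega) hz (isCyc_chi c') hd1 h3
        · exact ih z w (by omega) hz hw hd2 h3
    · obtain ⟨w, hw, hwz, hcz2, hsum, hl1, hl2⟩ := A5_red hz hc hcz hzc
      have hb2 : bil E (chi c) z' + bil E w z' = 1 := by
        rw [← bil_add_left, ← hsum]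
        exact hb
      have hd1 : VDisj (chi c) z' := fun e e' h1 h2 ↦ hd e e' (hcz2 e h1) h2
      have hd2 : VDisj w z' := fun e e' h1 h2 ↦ hd e e' (hwz e h1) h2
      rcases A5_split hb2 with h3 | h3
      · exact ih (chi c) z' (by omega) (isCyc_chi c) hz' hd1 h3
      · exact ih w z' (by omega) hw hz' hd2 h3

/-- Proof: strong induction on `|supp z| + |supp z'|`, copy of `H46K.A5_main` (without the
conclusions `CLe`): cycles `c` in `supp z`, `c'` in `supp z'` by `exists_cycle_of_isCyc`; if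
`z = chi c` and `z' = chi c'` done (`disjoint_of_vdisj`); otherwise split off by `A5_red` and
`A5_split`. -/
theorem cycles_of_chains {G : SimpleGraph V} {E : Sym2 V → Sym2 V → ZMod 2}
    (h : HasOddChains G E) : ∃ (a : V) (c₁ : G.Walk a a) (b : V) (c₂ : G.Walk b b),
      c₁.IsCycle ∧ c₂.IsCycle ∧ List.Disjoint c₁.support c₂.support ∧
        bil E (chi c₁) (chi c₂) = 1 := by
  obtain ⟨z, z', h1, h2, h3, h4⟩ := h
  exact c5_main _ z z' le_rfl h1 h2 h3 h4

/-- Proof: `cycles_of_chains` and `H46K.lk2_eq_bil`. -/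
theorem hasOdd_of_chains {G : SimpleGraph V} (f : SpatialGraph G) (d : P3)
    (h : HasOddChains G (EE f d)) : HasOdd f d := by
  obtain ⟨a, c₁, b, c₂, h1, h2, h3, h4⟩ := cycles_of_chains h
  refine ⟨a, c₁, b, c₂, h1, h2, h3, ?_⟩
  rw [lk2_eq_bil]
  exact h4

end H46R
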