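import Pool.Agent.Lib.H46K.A5
import Pool.Agent.Lib.H46K.B2
import Pool.Agent.Lib.H97G.D0

/-!
# H46R: a graph with a minor in the Petersen family has an odd link in every embedding
(Conway-Gordon, Sachs), in the form needed for MP_5f89c9_gt. Definitions.

Plan. `EE f d` is the form of pairs of edges (first passes over second). For a generic direction
`EE e f + EE f e` is the number of crossings of the projections of two disjoint edges, and this is
`interleaving of the ends + coboundary` (`LS`, part G). An `LS` pulls back along walk maps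
(`WalkMap`, part C): minors and Delta-Y exchanges. For `K6` and `K331` the sum over all pairs of
disjoint cycles is `1` (part K). So there is an odd pair of chains, hence an odd pair of cycles.
-/

set_option autoImplicit false

open scoped BigOperators

namespace H46R

open H46K H97G

variable {V W : Type} [Fintype V] [DecidableEq V] [Fintype W] [DecidableEq W]

/-! ## Linking systems -/

/-- `E` is a linking system on `G` with order function `L` and correction `w`: for disjoint edges
`e`, `f` the number `E e f + E f e` (crossings) is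
`∑_{i in e, j in f} L i j + ∑_{j in f} w e j + ∑_{i in e} w f i`. -/
structure LS (G : SimpleGraph V) (E : Sym2 V → Sym2 V → ZMod 2) (L : V → V → ZMod 2)
    (w : Sym2 V → V → ZMod 2) : Prop where
  anti : ∀ u v, u ≠ v → L u v + L v u = 1
  form : ∀ e ∈ G.edgeSet, ∀ f ∈ G.edgeSet, (∀ v, v ∈ e → v ∉ f) →
    E e f + E f e = (∑ i, ∑ j, if i ∈ e then (if j ∈ f then L i j else 0) else 0) +
      (∑ j, if j ∈ f then w e j else 0) + ∑ i, if i ∈ e then w f i else 0

/-- there is an odd pair of disjoint elements of the cycle space -/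
def HasOddChains (G : SimpleGraph V) (E : Sym2 V → Sym2 V → ZMod 2) : Prop :=
  ∃ z z', IsCyc G z ∧ IsCyc G z' ∧ VDisj z z' ∧ bil E z z' = 1

/-- A chain map from `H` to `G` preserving disjointness: every edge of `H` goes to a chain of `G`
whose boundary is the set of the two roots, disjoint edges go to disjoint chains. -/
structure DCM (H : SimpleGraph W) (G : SimpleGraph V) (r : W → V)
    (P : Sym2 W → Sym2 V → ZMod 2) : Prop where
  inj : Function.Injective r
  supp : ∀ h ∈ H.edgeSet, ∀ e, P h e ≠ 0 → e ∈ G.edgeSet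
  bdry : ∀ h ∈ H.edgeSet, ∀ v, bd (P h) v = ∑ u, if u ∈ h then (if v = r u then 1 else 0) else 0
  disj : ∀ h ∈ H.edgeSet, ∀ h' ∈ H.edgeSet, (∀ v, v ∈ h → v ∉ h') → VDisj (P h) (P h')

/-- the form pulled back -/
def pull (E : Sym2 V → Sym2 V → ZMod 2) (P : Sym2 W → Sym2 V → ZMod 2) (h h' : Sym2 W) : ZMod 2 :=
  bil E (P h) (P h')

/-- Every edge of `H` goes to a walk of `G` between the roots inside `S h`, and disjoint edges have
disjoint sets `S h`. -/
def WalkMap (H : SimpleGraph W) (G : SimpleGraph V) : Prop :=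
  ∃ (r : W → V) (S : Sym2 W → Set V), Function.Injective r ∧
    (∀ w w', H.Adj w w' → ∃ p : G.Walk (r w) (r w'), ∀ x ∈ p.support, x ∈ S s(w, w')) ∧
    ∀ h ∈ H.edgeSet, ∀ h' ∈ H.edgeSet, (∀ v, v ∈ h → v ∉ h') → Disjoint (S h) (S h')

/-! ## Minors and the Petersen family -/

/-- `H` is a minor of `G`: disjoint connected branch sets, with an edge of `G` between the branch
sets of adjacent vertices. -/
def IsMinor {α β : Type*} (H : SimpleGraph α) (G : SimpleGraph β) : Prop :=
  ∃ B : α → Set β, (∀ w, (G.induce (B w)).Connected) ∧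
    (∀ w w', w ≠ w' → Disjoint (B w) (B w')) ∧
    ∀ w w', H.Adj w w' → ∃ x ∈ B w, ∃ y ∈ B w', G.Adj x y

/-- the graph on `{0, ..., n - 1}` with the listed edges -/
def ofEdges (n : ℕ) (l : List (ℕ × ℕ)) : SimpleGraph (Fin n) where
  Adj i j := i ≠ j ∧ ((i.1, j.1) ∈ l ∨ (j.1, i.1) ∈ l)
  symm := ⟨fun _ _ h => ⟨h.1.symm, h.2.symm⟩⟩
  loopless := ⟨fun _ h => h.1 rfl⟩

instance (n : ℕ) (l : List (ℕ × ℕ)) : DecidableRel (ofEdges n l).Adj := fun _ _ =>
  inferInstanceAs (Decidable (_ ∧ _))

/-- the complete graph `K6` -/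
def K6 : SimpleGraph (Fin 6) := ofEdges 6
  [(0,1), (0,2), (0,3), (0,4), (0,5), (1,2), (1,3), (1,4), (1,5), (2,3), (2,4), (2,5), (3,4),
    (3,5), (4,5)]

/-- the complete tripartite graph `K_{3,3,1}` with parts `{1,2,3}`, `{4,5,6}`, `{0}` -/
def K331 : SimpleGraph (Fin 7) := ofEdges 7
  [(0,1), (0,2), (0,3), (0,4), (0,5), (0,6), (1,4), (1,5), (1,6), (2,4), (2,5), (2,6), (3,4),
    (3,5), (3,6)]

/-- `K6` with the triangle `0 1 2` replaced by a claw with centre `6` -/
def P7 : SimpleGraph (Fin 7) := ofEdges 7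
  [(6,0), (6,1), (6,2), (0,3), (0,4), (0,5), (1,3), (1,4), (1,5), (2,3), (2,4), (2,5), (3,4),
    (3,5), (4,5)]

/-- `P7` with the triangle `3 4 5` replaced by a claw with centre `7`; this is `K_{4,4}` with parts
`{0,1,2,7}`, `{3,4,5,6}` without the edge `6 7` -/
def K44m : SimpleGraph (Fin 8) := ofEdges 8
  [(6,0), (6,1), (6,2), (7,3), (7,4), (7,5), (0,3), (0,4), (0,5), (1,3), (1,4), (1,5), (2,3),
    (2,4), (2,5)]

/-- `P7` with the triangle `0 3 4` replaced by a claw with centre `7` -/
def P8 : SimpleGraph (Fin 8) := ofEdges 8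
  [(6,0), (6,1), (6,2), (7,0), (7,3), (7,4), (0,5), (1,3), (1,4), (1,5), (2,3), (2,4), (2,5),
    (3,5), (4,5)]

/-- `P8` with the triangle `1 3 5` replaced by a claw with centre `8` -/
def P9 : SimpleGraph (Fin 9) := ofEdges 9
  [(6,0), (6,1), (6,2), (7,0), (7,3), (7,4), (8,1), (8,3), (8,5), (0,5), (1,4), (2,3), (2,4),
    (2,5), (4,5)]

/-- `P9` with the triangle `2 4 5` replaced by a claw with centre `9`: the Petersen graph -/
def P10 : SimpleGraph (Fin 10) := ofEdges 10
  [(6,0), (6,1), (6,2), (7,0), (7,3), (7,4), (8,1), (8,3), (8,5), (9,2), (9,4), (9,5), (0,5),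
    (1,4), (2,3)]

/-- `G` has a minor in the Petersen family (the seven graphs obtained from `K6` by exchanges of
triangles and claws). -/
def HasPetersenMinor {β : Type*} (G : SimpleGraph β) : Prop :=
  IsMinor K6 G ∨ IsMinor K331 G ∨ IsMinor P7 G ∨ IsMinor K44m G ∨ IsMinor P8 G ∨ IsMinor P9 G ∨
    IsMinor P10 G

end H46R
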