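import Pool.Agent.Lib.H46R.Defs

/-! # H46R, F1: walk maps from `K6` into the graphs obtained by Delta-Y exchanges -/

set_option autoImplicit false

namespace H46R

/-- `c i j = some y`: the edge `i j` of `K6` goes to the path `i - y - j`; `c i j = none`: to the
edge `i j`. Proof. `r` is the inclusion `Fin.castLE hn`, `S s(i, j)` the set
`{r i, r j} ∪ {y | c i j = some y}` (define `S h := {x | ∃ i j, h = s(i, j) ∧ i ≠ j ∧
(x = r i ∨ x = r j ∨ c i j = some x)}`). Walks: `Walk.cons h1 (Walk.cons h2 nil)` or `Walk.cons h nil`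
(`h1`, `h2`, `h` from `hw`). Disjointness for disjoint `s(i, j)`, `s(k, l)`: `hd`. -/
theorem walkMap_of_centre (n : ℕ) (hn : 6 ≤ n) (G : SimpleGraph (Fin n))
    (c : Fin 6 → Fin 6 → Option (Fin n))
    (hw : ∀ i j, i ≠ j → (c i j = none ∧ G.Adj (Fin.castLE hn i) (Fin.castLE hn j)) ∨
      ∃ y, c i j = some y ∧ G.Adj (Fin.castLE hn i) y ∧ G.Adj y (Fin.castLE hn j))
    (hd : ∀ i j k l, i ≠ j → k ≠ l → i ≠ k → i ≠ l → j ≠ k → j ≠ l →
      ∀ y, c i j = some y → c k l ≠ some y ∧ y ≠ Fin.castLE hn k ∧ y ≠ Fin.castLE hn l) :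
    WalkMap K6 G := by
  have hinj : Function.Injective (Fin.castLE hn) := Fin.castLE_injective hn
  refine ⟨Fin.castLE hn, fun h => {x | ∃ i j, h = s(i, j) ∧ i ≠ j ∧
    (x = Fin.castLE hn i ∨ x = Fin.castLE hn j ∨ c i j = some x)}, hinj, ?_, ?_⟩
  · intro i j hij
    have hne : i ≠ j := hij.ne
    rcases hw i j hne with ⟨-, h⟩ | ⟨y, hy, h1, h2⟩
    · refine ⟨SimpleGraph.Walk.cons h SimpleGraph.Walk.nil, ?_⟩
      intro x hx
      simp only [SimpleGraph.Walk.support_cons, SimpleGraph.Walk.support_nil, List.mem_cons,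
        List.not_mem_nil, or_false] at hx
      rcases hx with rfl | rfl
      · exact ⟨i, j, rfl, hne, Or.inl rfl⟩
      · exact ⟨i, j, rfl, hne, Or.inr (Or.inl rfl)⟩
    · refine ⟨SimpleGraph.Walk.cons h1 (SimpleGraph.Walk.cons h2 SimpleGraph.Walk.nil), ?_⟩
      intro x hx
      simp only [SimpleGraph.Walk.support_cons, SimpleGraph.Walk.support_nil, List.mem_cons,
        List.not_mem_nil, or_false] at hx
      rcases hx with rfl | rfl | rfl
      · exact ⟨i, j, rfl, hne, Or.inl rfl⟩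
      · exact ⟨i, j, rfl, hne, Or.inr (Or.inr hy)⟩
      · exact ⟨i, j, rfl, hne, Or.inr (Or.inl rfl)⟩
  · intro h _ h' _ hdis
    rw [Set.disjoint_left]
    rintro x ⟨i, j, rfl, hij, hx⟩ ⟨k, l, rfl, hkl, hx'⟩
    have hi := hdis i (Sym2.mem_mk_left i j)
    have hj := hdis j (Sym2.mem_mk_right i j)
    rw [Sym2.mem_iff, not_or] at hi hj
    obtain ⟨hik, hil⟩ := hi
    obtain ⟨hjk, hjl⟩ := hj
    rcases hx with hx | hx | hx <;> rcases hx' with hx' | hx' | hx'
    · exact hik (hinj (hx.symm.trans hx'))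
    · exact hil (hinj (hx.symm.trans hx'))
    · exact (hd k l i j hkl hij (Ne.symm hik) (Ne.symm hjk) (Ne.symm hil) (Ne.symm hjl) x
        hx').2.1 hx
    · exact hjk (hinj (hx.symm.trans hx'))
    · exact hjl (hinj (hx.symm.trans hx'))
    · exact (hd k l i j hkl hij (Ne.symm hik) (Ne.symm hjk) (Ne.symm hil) (Ne.symm hjl) x
        hx').2.2 hx
    · exact (hd i j k l hij hkl hik hil hjk hjl x hx).2.1 hx'
    · exact (hd i j k l hij hkl hik hil hjk hjl x hx).2.2 hx'
    · exact (hd i j k l hij hkl hik hil hjk hjl x hx).1 hx'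

end H46R
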