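import Pool.Agent.Lib.H46R.F1

/-! # H46R, F2: the five graphs -/

set_option autoImplicit false

namespace H46R

/-- the centre function: the claws `6: 0 1 2`, `7: 0 3 4`, `8: 1 3 5`, `9: 2 4 5` as far as used -/
def cen (n : ℕ) (l : List (Fin 6 × Fin 6 × Fin n)) (i j : Fin 6) : Option (Fin n) :=
  (l.find? fun t => (t.1 = i ∧ t.2.1 = j) ∨ (t.1 = j ∧ t.2.1 = i)).map fun t => t.2.2

/-- Proof: `walkMap_of_centre` with `cen 7 [(0,1,6), (0,2,6), (1,2,6)]`, hypotheses by `decide`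
(if it is slow: `decide +kernel`). -/
theorem walkMap_P7 : WalkMap K6 P7 := by
  refine walkMap_of_centre 7 (by norm_num) _ (cen 7 [(0,1,6), (0,2,6), (1,2,6)]) ?_ ?_
  · unfold P7; decide +kernel
  · decide +kernel

/-- Proof: the same with `[(0,1,6), (0,2,6), (1,2,6), (3,4,7), (3,5,7), (4,5,7)]`. -/
theorem walkMap_K44m : WalkMap K6 K44m := by
  refine walkMap_of_centre 8 (by norm_num) _ (cen 8 [(0,1,6), (0,2,6), (1,2,6), (3,4,7), (3,5,7), (4,5,7)]) ?_ ?_
  · unfold K44m; decide +kernel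
  · decide +kernel

/-- Proof: the same with `[(0,1,6), (0,2,6), (1,2,6), (0,3,7), (0,4,7), (3,4,7)]`. -/
theorem walkMap_P8 : WalkMap K6 P8 := by
  refine walkMap_of_centre 8 (by norm_num) _ (cen 8 [(0,1,6), (0,2,6), (1,2,6), (0,3,7), (0,4,7), (3,4,7)]) ?_ ?_
  · unfold P8; decide +kernel
  · decide +kernel

/-- Proof: the same with the previous list and `(1,3,8), (1,5,8), (3,5,8)`. -/
theorem walkMap_P9 : WalkMap K6 P9 := by
  refine walkMap_of_centre 9 (by norm_num) _ (cen 9 [(0,1,6), (0,2,6), (1,2,6), (0,3,7), (0,4,7), (3,4,7), (1,3,8), (1,5,8), (3,5,8)]) ?_ ?_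
  · unfold P9; decide +kernel
  · decide +kernel

/-- Proof: the same with the previous list and `(2,4,9), (2,5,9), (4,5,9)`. -/
theorem walkMap_P10 : WalkMap K6 P10 := by
  refine walkMap_of_centre 10 (by norm_num) _ (cen 10 [(0,1,6), (0,2,6), (1,2,6), (0,3,7), (0,4,7), (3,4,7), (1,3,8), (1,5,8), (3,5,8), (2,4,9), (2,5,9), (4,5,9)]) ?_ ?_
  · unfold P10; decide +kernel
  · decide +kernel

end H46R
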