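import Pool.Agent.Lib.H46R.G6

/-! # H46R, G7: the form `EE f d` is a linking system for a generic direction -/

set_option autoImplicit false

namespace H46R

open H46K

variable {V : Type} [Fintype V] [DecidableEq V] {G : SimpleGraph V}

open Classical in
/-- the order function: compare the abscissas, break ties by a numbering of the vertices -/
noncomputable def LL (f : SpatialGraph G) (π : P3 →ₗ[ℝ] ℝ × ℝ) (u v : V) : ZMod 2 :=
  if (π (f.pt u)).1 < (π (f.pt v)).1 ∨
    ((π (f.pt u)).1 = (π (f.pt v)).1 ∧ Fintype.equivFin V u < Fintype.equivFin V v) then 1 else 0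

/-- number of crossings of the arc of `e` with the upward ray from the vertex `v` -/
noncomputable def WW (f : SpatialGraph G) (π : P3 →ₗ[ℝ] ℝ × ℝ) (e : Sym2 V) (v : V) : ZMod 2 :=
  ((osides (f.arc (Quot.out e).1 (Quot.out e).2)).map fun s =>
    ray (π s.1) (π s.2) (π (f.pt v))).sum

/-- Proof: trichotomy, `Fintype.equivFin V` is injective. -/
theorem LL_anti (f : SpatialGraph G) (π : P3 →ₗ[ℝ] ℝ × ℝ) (u v : V) (h : u ≠ v) :
    LL f π u v + LL f π v u = 1 := by
  unfold LL
  have hne : Fintype.equivFin V u ≠ Fintype.equivFin V v := fun h1 => h ((Fintype.equivFin V).injective h1)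
  rcases lt_trichotomy (π (f.pt u)).1 (π (f.pt v)).1 with h1 | h1 | h1
  · rw [if_pos (Or.inl h1), if_neg, add_zero]
    rintro (h2 | ⟨h2, _⟩)
    · exact absurd h2 h1.not_gt
    · exact absurd h2.symm h1.ne
  · rcases lt_or_gt_of_ne hne with h2 | h2
    · rw [if_pos (Or.inr ⟨h1, h2⟩), if_neg, add_zero]
      rintro (h3 | ⟨_, h3⟩)
      · exact absurd h1.symm h3.ne
      · exact absurd h3 h2.not_gt
    · rw [if_neg, if_pos (Or.inr ⟨h1.symm, h2⟩), zero_add]
      rintro (h3 | ⟨_, h3⟩)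
      · exact absurd h1 h3.ne
      · exact absurd h3 h2.not_gt
  · rw [if_neg, if_pos (Or.inl h1), zero_add]
    rintro (h2 | ⟨h2, _⟩)
    · exact absurd h2 h1.not_gt
    · exact absurd h2.symm h1.ne

/-- Proof: `Quot.out s(a, b)` is `(a, b)` or `(b, a)` (`H46K.A1_out`), in the second case the arc is
reversed (`H46K.arc_symm`, `H46K.osides_reverse`, `List.sum_reverse`, `ray_symm`). -/
theorem WW_mk (f : SpatialGraph G) (π : P3 →ₗ[ℝ] ℝ × ℝ) {a b : V} (h : G.Adj a b) (v : V) :
    WW f π s(a, b) v = ((osides (f.arc a b)).map fun s => ray (π s.1) (π s.2) (π (f.pt v))).sum := by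
  unfold WW
  rcases A1_out a b with h1 | h1 <;> rw [h1]
  rw [arc_symm f h, osides_reverse, List.map_reverse, List.sum_reverse, List.map_map]
  congr 1
  refine List.map_congr_left fun s _ => ?_
  simp only [Function.comp_apply, Prod.fst_swap, Prod.snd_swap]
  exact ray_symm _ _ _

theorem g7_lt2 (f : SpatialGraph G) (π : P3 →ₗ[ℝ] ℝ × ℝ)
    (hX : ∀ x ∈ pts f, ∀ y ∈ pts f, x ≠ y → (π x).1 ≠ (π y).1) {u v : V}
    (hu : f.pt u ∈ pts f) (hv : f.pt v ∈ pts f) (h : u ≠ v) :
    LL f π u v = lt2 (π (f.pt u)).1 (π (f.pt v)).1 := by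
  have h1 := hX _ hu _ hv (fun h2 => h (f.pt_inj h2))
  unfold LL lt2
  congr 1
  rw [eq_iff_iff]
  constructor
  · rintro (h2 | ⟨h2, _⟩)
    · exact h2
    · exact absurd h2 h1
  · exact fun h2 => Or.inl h2

/-- Proof. `EE_mk` twice; `f.arc a b = f.pt a :: (f.mid a b ++ [f.pt b])`; `ov_formula` with
`R s x = ray (π s.1) (π s.2) (π x)`, `O x y = lt2 (π x).1 (π y).1`; its hypothesis is `over_formula`
with the facts of G6 (for a side `s` of one arc and `t` of the other: `Dist4` from `hX` as the four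
points are in `pts f` and different: `side_ne`, and points of different arcs by `arcs_disj` with
`mem_arcSet`; `no_line` four times; disjointness of the sides by `segment_subset_arcSet`).
Then `WW_mk`, `List.sum_map_add`, and `lt2 = LL` as the abscissas of the ends of edges differ. -/
theorem EE_form (f : SpatialGraph G) (d : P3) (hd : Generic f d) (π : P3 →ₗ[ℝ] ℝ × ℝ)
    (hπ : ∀ v, π v = 0 ↔ ∃ r : ℝ, v = r • d)
    (hX : ∀ x ∈ pts f, ∀ y ∈ pts f, x ≠ y → (π x).1 ≠ (π y).1) {a b c e : V} (hab : G.Adj a b)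
    (hce : G.Adj c e) (h1 : a ≠ c) (h2 : a ≠ e) (h3 : b ≠ c) (h4 : b ≠ e) :
    EE f d s(a, b) s(c, e) + EE f d s(c, e) s(a, b) =
      (WW f π s(a, b) c + WW f π s(a, b) e) + (WW f π s(c, e) a + WW f π s(c, e) b) +
        (LL f π a c + LL f π a e + (LL f π b c + LL f π b e)) := by
  have hdisj := arcs_disj f hab hce h1 h2 h3 h4
  have hpa : f.pt a ∈ pts f := ⟨a, b, hab, List.mem_cons_self⟩
  have hpb : f.pt b ∈ pts f := ⟨a, b, hab, by simp [SpatialGraph.arc]⟩
  have hpc : f.pt c ∈ pts f := ⟨c, e, hce, List.mem_cons_self⟩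
  have hpe : f.pt e ∈ pts f := ⟨c, e, hce, by simp [SpatialGraph.arc]⟩
  have key := ov_formula d (f.pt a) (f.pt b) (f.pt c) (f.pt e) (f.mid a b) (f.mid c e)
    (fun s x => ray (π s.1) (π s.2) (π x)) (fun x y => lt2 (π x).1 (π y).1) (by
      intro s hs t ht
      have hs' : s ∈ osides (f.arc a b) := hs
      have ht' : t ∈ osides (f.arc c e) := ht
      have ms := mem_of_osides _ _ hs'
      have mt := mem_of_osides _ _ ht'
      have ps1 : s.1 ∈ pts f := ⟨a, b, hab, ms.1⟩
      have ps2 : s.2 ∈ pts f := ⟨a, b, hab, ms.2⟩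
      have pt1 : t.1 ∈ pts f := ⟨c, e, hce, mt.1⟩
      have pt2 : t.2 ∈ pts f := ⟨c, e, hce, mt.2⟩
      have hne : ∀ x ∈ f.arc a b, ∀ y ∈ f.arc c e, x ≠ y := by
        intro x hx y hy hxy
        subst hxy
        exact Set.disjoint_left.1 hdisj (mem_arcSet _ _ hx) (mem_arcSet _ _ hy)
      have hD : Dist4 (π s.1) (π s.2) (π t.1) (π t.2) :=
        ⟨hX _ ps1 _ ps2 (side_ne f hab s hs'), hX _ ps1 _ pt1 (hne _ ms.1 _ mt.1),
          hX _ ps1 _ pt2 (hne _ ms.1 _ mt.2), hX _ ps2 _ pt1 (hne _ ms.2 _ mt.1),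
          hX _ ps2 _ pt2 (hne _ ms.2 _ mt.2), hX _ pt1 _ pt2 (side_ne f hce t ht')⟩
      exact over_formula π d hd.1 hπ s.1 s.2 t.1 t.2 hD
        (fun r => no_line f d hd hab hce h1 h2 h3 h4 s.1 ms.1 t ht' r)
        (fun r => no_line f d hd hab hce h1 h2 h3 h4 s.2 ms.2 t ht' r)
        (fun r => no_line f d hd hce hab h1.symm h3.symm h2.symm h4.symm t.1 mt.1 s hs' r)
        (fun r => no_line f d hd hce hab h1.symm h3.symm h2.symm h4.symm t.2 mt.2 s hs' r)
        (hdisj.mono (segment_subset_arcSet _ s hs') (segment_subset_arcSet _ t ht')))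
  rw [EE_mk f d hab hce, EE_mk f d hce hab]
  refine Eq.trans key ?_
  rw [WW_mk f π hab, WW_mk f π hab, WW_mk f π hce, WW_mk f π hce, g7_lt2 f π hX hpa hpc h1,
    g7_lt2 f π hX hpa hpe h2, g7_lt2 f π hX hpb hpc h3, g7_lt2 f π hX hpb hpe h4,
    List.sum_map_add, List.sum_map_add]
  rfl

theorem g7_sum {a b : V} (h : a ≠ b) (g : V → ZMod 2) :
    (∑ i, if i ∈ s(a, b) then g i else 0) = g a + g b := by
  have h1 : ∀ i : V, (if i ∈ s(a, b) then g i else 0) =
      (if i = a then g i else 0) + (if i = b then g i else 0) := by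
    intro i
    by_cases ha : i = a
    · subst ha
      simp [h]
    · by_cases hb : i = b
      · subst hb
        simp [ha]
      · simp [ha, hb]
  rw [Finset.sum_congr rfl fun i _ => h1 i, Finset.sum_add_distrib]
  simp

/-- Proof. `exists_proj` for `pts f` (`pts_finite`, `pts_ne`); `L = LL f π`, `w = WW f π`; `form`:
`e = s(a, b)`, `f = s(c, e)` by `Sym2.ind`, the three sums over the vertices have 4, 2, 2 terms
(`Finset.sum_ite`, or `∑ i, (if i ∈ s(a, b) then g i else 0) = g a + g b` for `a ≠ b`), and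
`EE_form`. -/
theorem ls_EE (f : SpatialGraph G) (d : P3) (hd : Generic f d) :
    ∃ L w, LS G (EE f d) L w := by
  obtain ⟨π, hπ, hX⟩ := exists_proj d hd.1 (pts f) (pts_finite f) (pts_ne f d hd)
  refine ⟨LL f π, WW f π, ⟨LL_anti f π, ?_⟩⟩
  intro e he e' he' hdis
  induction e using Sym2.ind with
  | _ a b =>
  induction e' using Sym2.ind with
  | _ c e =>
  have hab : G.Adj a b := he
  have hce : G.Adj c e := he'
  have ma : a ∈ s(a, b) := Sym2.mem_mk_left a b
  have mb : b ∈ s(a, b) := Sym2.mem_mk_right a b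
  have mc : c ∈ s(c, e) := Sym2.mem_mk_left c e
  have me : e ∈ s(c, e) := Sym2.mem_mk_right c e
  have h1 : a ≠ c := fun h => hdis a ma (h ▸ mc)
  have h2 : a ≠ e := fun h => hdis a ma (h ▸ me)
  have h3 : b ≠ c := fun h => hdis b mb (h ▸ mc)
  have h4 : b ≠ e := fun h => hdis b mb (h ▸ me)
  rw [EE_form f d hd π hπ hX hab hce h1 h2 h3 h4]
  have hd1 : (∑ i, ∑ j, if i ∈ s(a, b) then (if j ∈ s(c, e) then LL f π i j else 0) else 0) =
      (LL f π a c + LL f π a e) + (LL f π b c + LL f π b e) := by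
    have h5 : ∀ i : V, (∑ j, if i ∈ s(a, b) then (if j ∈ s(c, e) then LL f π i j else 0) else 0) =
        if i ∈ s(a, b) then LL f π i c + LL f π i e else 0 := by
      intro i
      split_ifs with h6
      · exact g7_sum hce.ne (fun j => LL f π i j)
      · simp
    rw [Finset.sum_congr rfl fun i _ => h5 i]
    exact g7_sum hab.ne (fun i => LL f π i c + LL f π i e)
  rw [hd1, g7_sum hce.ne (fun j => WW f π s(a, b) j), g7_sum hab.ne (fun i => WW f π s(c, e) i)]
  ring

end H46R
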