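import Pool.Agent.Lib.H46R.Defs
import Pool.Agent.Lib.H46K.A3

/-! # H46R, K1: Conway-Gordon-Sachs for `K6` -/

set_option autoImplicit false

namespace H46R

open H46K

section

variable {V : Type} [Fintype V] [DecidableEq V]

theorem k1_bil_se (E : Sym2 V → Sym2 V → ZMod 2) (e f : Sym2 V) : bil E (se e) (se f) = E e f := by
  unfold bil se
  rw [Finset.sum_eq_single e]
  · rw [Finset.sum_eq_single f]
    · simp
    · intro b _ hb
      simp [hb]
    · intro h
      exact absurd (Finset.mem_univ _) h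
  · intro b _ hb
    simp [hb]
  · intro h
    exact absurd (Finset.mem_univ _) h

/-- the chain of a triangle -/
def k1_tri (a b c : V) : Sym2 V → ZMod 2 := fun e => (se s(a, b) e + se s(b, c) e) + se s(a, c) e

theorem k1_bil_tri (E : Sym2 V → Sym2 V → ZMod 2) (a b c x y z : V) :
    bil E (k1_tri a b c) (k1_tri x y z) =
      (E s(a, b) s(x, y) + E s(a, b) s(y, z) + E s(a, b) s(x, z)) +
      (E s(b, c) s(x, y) + E s(b, c) s(y, z) + E s(b, c) s(x, z)) +
      (E s(a, c) s(x, y) + E s(a, c) s(y, z) + E s(a, c) s(x, z)) := by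
  unfold k1_tri
  simp only [bil_add_left, bil_add_right, k1_bil_se]
  ring

theorem k1_se_ne {e x : Sym2 V} (h : se e x ≠ 0) : x = e := by
  unfold se at h
  by_contra hne
  simp [hne] at h

theorem k1_tri_ne {a b c : V} {x : Sym2 V} (h : k1_tri a b c x ≠ 0) :
    x = s(a, b) ∨ x = s(b, c) ∨ x = s(a, c) := by
  by_contra hc
  rw [not_or, not_or] at hc
  obtain ⟨h1, h2, h3⟩ := hc
  apply h
  unfold k1_tri se
  simp [h1, h2, h3]

theorem k1_bd_add (z z' : Sym2 V → ZMod 2) (v : V) :
    (∑ e : Sym2 V, (if v ∈ e then z e + z' e else 0)) =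
      (∑ e : Sym2 V, (if v ∈ e then z e else 0)) + ∑ e : Sym2 V, (if v ∈ e then z' e else 0) := by
  rw [← Finset.sum_add_distrib]
  refine Finset.sum_congr rfl fun e _ => ?_
  split_ifs <;> simp

theorem k1_bd_se {v w : V} (h : v ≠ w) (u : V) :
    (∑ e : Sym2 V, (if u ∈ e then se s(v, w) e else 0)) =
      (if u = v then (1 : ZMod 2) else 0) + (if u = w then 1 else 0) := bd_se v w u h

theorem k1_tri_cyc {G : SimpleGraph V} {a b c : V} (hab : G.Adj a b) (hbc : G.Adj b c)
    (hac : G.Adj a c) : IsCyc G (k1_tri a b c) := by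
  constructor
  · intro e he
    rcases k1_tri_ne he with rfl | rfl | rfl
    · exact hab
    · exact hbc
    · exact hac
  · intro v
    unfold k1_tri
    rw [k1_bd_add, k1_bd_add, k1_bd_se hab.ne, k1_bd_se hbc.ne, k1_bd_se hac.ne]
    have h2 : (2 : ZMod 2) = 0 := rfl
    linear_combination ((if v = a then (1 : ZMod 2) else 0) + (if v = b then 1 else 0) +
      (if v = c then 1 else 0)) * h2

theorem k1_form {G : SimpleGraph V} {E : Sym2 V → Sym2 V → ZMod 2} {L : V → V → ZMod 2}
    {w : Sym2 V → V → ZMod 2} (h : LS G E L w) {a b c d : V} (hab : G.Adj a b) (hcd : G.Adj c d)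
    (h1 : a ≠ c) (h2 : a ≠ d) (h3 : b ≠ c) (h4 : b ≠ d) :
    E s(a, b) s(c, d) + E s(c, d) s(a, b) =
      (L a c + L a d + L b c + L b d) + (w s(a, b) c + w s(a, b) d) +
        (w s(c, d) a + w s(c, d) b) := by
  have hs : ∀ (x y : V) (_ : x ≠ y) (g : V → ZMod 2),
      (∑ i, if i ∈ s(x, y) then g i else 0) = g x + g y := by
    intro x y hxy g
    have : ∀ i, (if i ∈ s(x, y) then g i else 0) =
        (if i = x then g i else 0) + (if i = y then g i else 0) := by
      intro i
      simp only [Sym2.mem_iff]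
      by_cases h5 : i = x
      · have h6 : i ≠ y := by
          rw [h5]
          exact hxy
        simp [h5, hxy]
      · by_cases h6 : i = y
        · simp [h6, hxy.symm]
        · simp [h5, h6]
    simp only [this, Finset.sum_add_distrib, Finset.sum_ite_eq', Finset.mem_univ, if_true]
  rw [h.form s(a, b) hab s(c, d) hcd (by
    intro v hv hv'
    rw [Sym2.mem_iff] at hv hv'
    rcases hv with rfl | rfl <;> rcases hv' with h5 | h5
    · exact h1 h5
    · exact h2 h5
    · exact h3 h5
    · exact h4 h5)]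
  rw [hs c d hcd.ne, hs a b hab.ne]
  have h5 : (∑ i, ∑ j, if i ∈ s(a, b) then (if j ∈ s(c, d) then L i j else 0) else 0) =
      ∑ i, if i ∈ s(a, b) then (L i c + L i d) else 0 := by
    refine Finset.sum_congr rfl fun i _ => ?_
    by_cases h6 : i ∈ s(a, b)
    · simp only [h6, if_true]
      exact hs c d hcd.ne _
    · simp [h6]
  rw [h5, hs a b hab.ne]
  ring

/-- no odd pair: the form vanishes on disjoint triangles -/
theorem k1_zero {G : SimpleGraph V} {E : Sym2 V → Sym2 V → ZMod 2} (hno : ¬ HasOddChains G E)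
    {z z' : Sym2 V → ZMod 2} (h1 : IsCyc G z) (h2 : IsCyc G z') (h3 : VDisj z z') :
    bil E z z' = 0 := by
  by_contra hne
  apply hno
  refine ⟨z, z', h1, h2, h3, ?_⟩
  generalize bil E z z' = t at hne ⊢
  revert hne
  revert t
  decide

theorem k1_tri_disj {a b c x y z : V} (h1 : a ≠ x) (h2 : a ≠ y) (h3 : a ≠ z) (h4 : b ≠ x)
    (h5 : b ≠ y) (h6 : b ≠ z) (h7 : c ≠ x) (h8 : c ≠ y) (h9 : c ≠ z) :
    VDisj (k1_tri a b c) (k1_tri x y z) := by
  intro e e' he he' v hv hv'
  have k1 : v = a ∨ v = b ∨ v = c := by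
    rcases k1_tri_ne he with rfl | rfl | rfl <;> rw [Sym2.mem_iff] at hv <;> tauto
  have k2 : v = x ∨ v = y ∨ v = z := by
    rcases k1_tri_ne he' with rfl | rfl | rfl <;> rw [Sym2.mem_iff] at hv' <;> tauto
  rcases k1 with rfl | rfl | rfl <;> rcases k2 with h | h | h
  · exact h1 h
  · exact h2 h
  · exact h3 h
  · exact h4 h
  · exact h5 h
  · exact h6 h
  · exact h7 h
  · exact h8 h
  · exact h9 h

end

theorem k1_adj : ∀ i j : Fin 6, i ≠ j → K6.Adj i j := by
  unfold K6
  decide

theorem odd_K6 {E : Sym2 (Fin 6) → Sym2 (Fin 6) → ZMod 2} {L : Fin 6 → Fin 6 → ZMod 2}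
    {w : Sym2 (Fin 6) → Fin 6 → ZMod 2} (h : LS K6 E L w) : HasOddChains K6 E := by
  by_contra hno
  have hq : ∀ a b c x y z : Fin 6, a ≠ b → b ≠ c → a ≠ c → x ≠ y → y ≠ z → x ≠ z → a ≠ x → a ≠ y →
      a ≠ z → b ≠ x → b ≠ y → b ≠ z → c ≠ x → c ≠ y → c ≠ z →
      (E s(a, b) s(x, y) + E s(a, b) s(y, z) + E s(a, b) s(x, z)) +
      (E s(b, c) s(x, y) + E s(b, c) s(y, z) + E s(b, c) s(x, z)) +
      (E s(a, c) s(x, y) + E s(a, c) s(y, z) + E s(a, c) s(x, z)) = 0 := by
    intro a b c x y z h1 h2 h3 h4 h5 h6 g1 g2 g3 g4 g5 g6 g7 g8 g9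
    rw [← k1_bil_tri]
    exact k1_zero hno (k1_tri_cyc (k1_adj _ _ h1) (k1_adj _ _ h2) (k1_adj _ _ h3))
      (k1_tri_cyc (k1_adj _ _ h4) (k1_adj _ _ h5) (k1_adj _ _ h6))
      (k1_tri_disj g1 g2 g3 g4 g5 g6 g7 g8 g9)
  have hf : ∀ a b c d : Fin 6, a ≠ b → c ≠ d → a ≠ c → a ≠ d → b ≠ c → b ≠ d →
      E s(a, b) s(c, d) + E s(c, d) s(a, b) =
      (L a c + L a d + L b c + L b d) + (w s(a, b) c + w s(a, b) d) +
        (w s(c, d) a + w s(c, d) b) := fun a b c d h1 h2 h3 h4 h5 h6 =>
    k1_form h (k1_adj _ _ h1) (k1_adj _ _ h2) h3 h4 h5 h6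
  have h2 : (2 : ZMod 2) = 0 := rfl
  have q0 := hq 0 1 2 3 4 5 (by decide) (by decide) (by decide) (by decide) (by decide)
    (by decide) (by decide) (by decide) (by decide) (by decide) (by decide) (by decide) (by decide)
    (by decide) (by decide)
  have q1 := hq 0 1 3 2 4 5 (by decide) (by decide) (by decide) (by decide) (by decide)
    (by decide) (by decide) (by decide) (by decide) (by decide) (by decide) (by decide) (by decide)
    (by decide) (by decide)
  have q2 := hq 0 1 4 2 3 5 (by decide) (by decide) (by decide) (by decide) (by decide)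
    (by decide) (by decide) (by decide) (by decide) (by decide) (by decide) (by decide) (by decide)
    (by decide) (by decide)
  have q3 := hq 0 1 5 2 3 4 (by decide) (by decide) (by decide) (by decide) (by decide)
    (by decide) (by decide) (by decide) (by decide) (by decide) (by decide) (by decide) (by decide)
    (by decide) (by decide)
  have q4 := hq 0 2 3 1 4 5 (by decide) (by decide) (by decide) (by decide) (by decide)
    (by decide) (by decide) (by decide) (by decide) (by decide) (by decide) (by decide) (by decide)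
    (by decide) (by decide)
  have q5 := hq 0 2 4 1 3 5 (by decide) (by decide) (by decide) (by decide) (by decide)
    (by decide) (by decide) (by decide) (by decide) (by decide) (by decide) (by decide) (by decide)
    (by decide) (by decide)
  have q6 := hq 0 2 5 1 3 4 (by decide) (by decide) (by decide) (by decide) (by decide)
    (by decide) (by decide) (by decide) (by decide) (by decide) (by decide) (by decide) (by decide)
    (by decide) (by decide)
  have q7 := hq 0 3 4 1 2 5 (by decide) (by decide) (by decide) (by decide) (by decide)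
    (by decide) (by decide) (by decide) (by decide) (by decide) (by decide) (by decide) (by decide)
    (by decide) (by decide)
  have q8 := hq 0 3 5 1 2 4 (by decide) (by decide) (by decide) (by decide) (by decide)
    (by decide) (by decide) (by decide) (by decide) (by decide) (by decide) (by decide) (by decide)
    (by decide) (by decide)
  have q9 := hq 0 4 5 1 2 3 (by decide) (by decide) (by decide) (by decide) (by decide)
    (by decide) (by decide) (by decide) (by decide) (by decide) (by decide) (by decide) (by decide)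
    (by decide) (by decide)
  have f0 := hf 1 2 3 4 (by decide) (by decide) (by decide) (by decide) (by decide) (by decide)
  have f1 := hf 1 3 2 4 (by decide) (by decide) (by decide) (by decide) (by decide) (by decide)
  have f2 := hf 1 4 2 3 (by decide) (by decide) (by decide) (by decide) (by decide) (by decide)
  have f3 := hf 1 2 3 5 (by decide) (by decide) (by decide) (by decide) (by decide) (by decide)
  have f4 := hf 1 3 2 5 (by decide) (by decide) (by decide) (by decide) (by decide) (by decide)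
  have f5 := hf 1 5 2 3 (by decide) (by decide) (by decide) (by decide) (by decide) (by decide)
  have f6 := hf 1 2 4 5 (by decide) (by decide) (by decide) (by decide) (by decide) (by decide)
  have f7 := hf 1 4 2 5 (by decide) (by decide) (by decide) (by decide) (by decide) (by decide)
  have f8 := hf 1 5 2 4 (by decide) (by decide) (by decide) (by decide) (by decide) (by decide)
  have f9 := hf 1 3 4 5 (by decide) (by decide) (by decide) (by decide) (by decide) (by decide)
  have f10 := hf 1 4 3 5 (by decide) (by decide) (by decide) (by decide) (by decide) (by decide)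
  have f11 := hf 1 5 3 4 (by decide) (by decide) (by decide) (by decide) (by decide) (by decide)
  have f12 := hf 2 3 4 5 (by decide) (by decide) (by decide) (by decide) (by decide) (by decide)
  have f13 := hf 2 4 3 5 (by decide) (by decide) (by decide) (by decide) (by decide) (by decide)
  have f14 := hf 2 5 3 4 (by decide) (by decide) (by decide) (by decide) (by decide) (by decide)
  have a23 := h.anti 2 3 (by decide)
  have a24 := h.anti 2 4 (by decide)
  have a25 := h.anti 2 5 (by decide)
  have a34 := h.anti 3 4 (by decide)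
  have a35 := h.anti 3 5 (by decide)
  have a45 := h.anti 4 5 (by decide)
  have key : (1 : ZMod 2) = 0 := by
    linear_combination (q0 + q1 + q2 + q3 + q4 + q5 + q6 + q7 + q8 + q9) -
      (f0 + f1 + f2 + f3 + f4 + f5 + f6 + f7 + f8 + f9 + f10 + f11 + f12 + f13 + f14) -
      (2 * a23 + 2 * a24 + 2 * a25 + 3 * a34 + 3 * a35 + 3 * a45) +
      (
        (-1) * E s(0, 1) s(3, 4) + (-1) * E s(0, 1) s(4, 5) + (-1) * E s(0, 1) s(3, 5) +
        (-1) * E s(0, 2) s(3, 4) + (-1) * E s(0, 2) s(4, 5) + (-1) * E s(0, 2) s(3, 5) +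
        (-1) * E s(0, 1) s(2, 4) + (-1) * E s(0, 1) s(2, 5) + (-1) * E s(0, 3) s(2, 4) +
        (-1) * E s(0, 3) s(4, 5) + (-1) * E s(0, 3) s(2, 5) + (-1) * E s(0, 1) s(2, 3) +
        (-1) * E s(0, 4) s(2, 3) + (-1) * E s(0, 4) s(3, 5) + (-1) * E s(0, 4) s(2, 5) +
        (-1) * E s(0, 5) s(2, 3) + (-1) * E s(0, 5) s(3, 4) + (-1) * E s(0, 5) s(2, 4) +
        (-1) * E s(0, 2) s(1, 4) + (-1) * E s(0, 2) s(1, 5) + (-1) * E s(0, 3) s(1, 4) +
        (-1) * E s(0, 3) s(1, 5) + (-1) * E s(0, 2) s(1, 3) + (-1) * E s(0, 4) s(1, 3) +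
        (-1) * E s(0, 4) s(1, 5) + (-1) * E s(0, 5) s(1, 3) + (-1) * E s(0, 5) s(1, 4) +
        (-1) * E s(0, 3) s(1, 2) + (-1) * E s(0, 4) s(1, 2) + (-1) * E s(0, 5) s(1, 2) +
        (-3) * L 1 3 + (-3) * L 1 4 + (-1) * L 2 3 + (-1) * L 2 4 + (-1) * w s(1, 2) 3 +
        (-1) * w s(1, 2) 4 + (-1) * w s(3, 4) 1 + (-1) * w s(3, 4) 2 + (-3) * L 1 2 +
        (-1) * w s(1, 3) 2 + (-1) * w s(1, 3) 4 + (-1) * w s(2, 4) 1 + (-1) * w s(2, 4) 3 +
        (-1) * w s(1, 4) 2 + (-1) * w s(1, 4) 3 + (-1) * w s(2, 3) 1 + (-1) * w s(2, 3) 4 +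
        (-3) * L 1 5 + (-1) * L 2 5 + (-1) * w s(1, 2) 5 + (-1) * w s(3, 5) 1 +
        (-1) * w s(3, 5) 2 + (-1) * w s(1, 3) 5 + (-1) * w s(2, 5) 1 + (-1) * w s(2, 5) 3 +
        (-1) * w s(1, 5) 2 + (-1) * w s(1, 5) 3 + (-1) * w s(2, 3) 5 + (-1) * w s(4, 5) 1 +
        (-1) * w s(4, 5) 2 + (-1) * w s(1, 4) 5 + (-1) * w s(2, 5) 4 + (-1) * w s(1, 5) 4 +
        (-1) * w s(2, 4) 5 + (-1) * w s(4, 5) 3 + (-1) * w s(3, 5) 4 + (-1) * w s(3, 4) 5 +
        (-7)) * h2
  exact absurd key (by decide)

end H46R
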