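import Pool.Agent.Lib.H46R.K1

/-! # H46R, K2: Sachs for `K331` -/

set_option autoImplicit false

namespace H46R

open H46K

section

variable {V : Type} [Fintype V] [DecidableEq V]

/-- the chain of a 4-cycle -/
def k2_quad (a1 a2 b1 b2 : V) : Sym2 V → ZMod 2 :=
  fun e => ((se s(a1, b1) e + se s(a1, b2) e) + se s(a2, b1) e) + se s(a2, b2) e

theorem k2_bil (E : Sym2 V → Sym2 V → ZMod 2) (z a b a1 a2 b1 b2 : V) :
    bil E (k1_tri z a b) (k2_quad a1 a2 b1 b2) =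
      (E s(z, a) s(a1, b1) + E s(z, a) s(a1, b2) + E s(z, a) s(a2, b1) + E s(z, a) s(a2, b2)) +
      (E s(a, b) s(a1, b1) + E s(a, b) s(a1, b2) + E s(a, b) s(a2, b1) + E s(a, b) s(a2, b2)) +
      (E s(z, b) s(a1, b1) + E s(z, b) s(a1, b2) + E s(z, b) s(a2, b1) + E s(z, b) s(a2, b2)) := by
  unfold k1_tri k2_quad
  simp only [bil_add_left, bil_add_right, k1_bil_se]
  ring

theorem k2_quad_ne {a1 a2 b1 b2 : V} {x : Sym2 V} (h : k2_quad a1 a2 b1 b2 x ≠ 0) :
    x = s(a1, b1) ∨ x = s(a1, b2) ∨ x = s(a2, b1) ∨ x = s(a2, b2) := by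
  by_contra hc
  rw [not_or, not_or, not_or] at hc
  obtain ⟨h1, h2, h3, h4⟩ := hc
  apply h
  unfold k2_quad se
  simp [h1, h2, h3, h4]

theorem k2_quad_cyc {G : SimpleGraph V} {a1 a2 b1 b2 : V} (g1 : G.Adj a1 b1) (g2 : G.Adj a1 b2)
    (g3 : G.Adj a2 b1) (g4 : G.Adj a2 b2) : IsCyc G (k2_quad a1 a2 b1 b2) := by
  constructor
  · intro e he
    rcases k2_quad_ne he with rfl | rfl | rfl | rfl
    · exact g1
    · exact g2
    · exact g3
    · exact g4
  · intro v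
    unfold k2_quad
    rw [k1_bd_add, k1_bd_add, k1_bd_add, k1_bd_se g1.ne, k1_bd_se g2.ne, k1_bd_se g3.ne,
      k1_bd_se g4.ne]
    have h2 : (2 : ZMod 2) = 0 := rfl
    linear_combination ((if v = a1 then (1 : ZMod 2) else 0) + (if v = a2 then 1 else 0) +
      (if v = b1 then 1 else 0) + (if v = b2 then 1 else 0)) * h2

/-- the vertices of the triangle `0 a b` are different from the other four -/
def k2_dis (a b a1 a2 b1 b2 : Fin 7) : Prop :=
  ∀ x ∈ [(0 : Fin 7), a, b], ∀ y ∈ [a1, a2, b1, b2], x ≠ y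

theorem k2_disj {a b a1 a2 b1 b2 : Fin 7} (hd : k2_dis a b a1 a2 b1 b2) :
    VDisj (k1_tri 0 a b) (k2_quad a1 a2 b1 b2) := by
  intro e e' he he' v hv hv'
  have k1 : v ∈ [(0 : Fin 7), a, b] := by
    rcases k1_tri_ne he with rfl | rfl | rfl <;> rw [Sym2.mem_iff] at hv <;>
      simp only [List.mem_cons, List.not_mem_nil, or_false] <;> tauto
  have k2 : v ∈ [a1, a2, b1, b2] := by
    rcases k2_quad_ne he' with rfl | rfl | rfl | rfl <;> rw [Sym2.mem_iff] at hv' <;>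
      simp only [List.mem_cons, List.not_mem_nil, or_false] <;> tauto
  exact hd v k1 v k2 rfl

end

theorem k2_adj : ∀ i j : Fin 7, ((i, j) ∈ [((0 : Fin 7), (1 : Fin 7)), (0,2), (0,3), (0,4), (0,5),
    (0,6), (1,4), (1,5), (1,6), (2,4), (2,5), (2,6), (3,4), (3,5), (3,6)]) → K331.Adj i j := by
  unfold K331
  decide

theorem odd_K331 {E : Sym2 (Fin 7) → Sym2 (Fin 7) → ZMod 2} {L : Fin 7 → Fin 7 → ZMod 2}
    {w : Sym2 (Fin 7) → Fin 7 → ZMod 2} (h : LS K331 E L w) : HasOddChains K331 E := by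
  by_contra hno
  have hq : ∀ a b a1 a2 b1 b2 : Fin 7, K331.Adj 0 a → K331.Adj a b → K331.Adj 0 b →
      K331.Adj a1 b1 → K331.Adj a1 b2 → K331.Adj a2 b1 → K331.Adj a2 b2 →
      k2_dis a b a1 a2 b1 b2 →
      (E s(0, a) s(a1, b1) + E s(0, a) s(a1, b2) + E s(0, a) s(a2, b1) + E s(0, a) s(a2, b2)) +
      (E s(a, b) s(a1, b1) + E s(a, b) s(a1, b2) + E s(a, b) s(a2, b1) + E s(a, b) s(a2, b2)) +
      (E s(0, b) s(a1, b1) + E s(0, b) s(a1, b2) + E s(0, b) s(a2, b1) + E s(0, b) s(a2, b2)) = 0 := by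
    intro a b a1 a2 b1 b2 h1 h2 h3 g1 g2 g3 g4 hd
    rw [← k2_bil]
    exact k1_zero hno (k1_tri_cyc h1 h2 h3) (k2_quad_cyc g1 g2 g3 g4) (k2_disj hd)
  have hf : ∀ a b c d : Fin 7, K331.Adj a b → K331.Adj c d → a ≠ c → a ≠ d → b ≠ c → b ≠ d →
      E s(a, b) s(c, d) + E s(c, d) s(a, b) =
      (L a c + L a d + L b c + L b d) + (w s(a, b) c + w s(a, b) d) +
        (w s(c, d) a + w s(c, d) b) := fun a b c d h1 h2 h3 h4 h5 h6 =>
    k1_form h h1 h2 h3 h4 h5 h6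
  have h2 : (2 : ZMod 2) = 0 := rfl
  have q0 := hq 1 4 2 3 5 6 (k2_adj _ _ (by decide)) (k2_adj _ _ (by decide))
    (k2_adj _ _ (by decide)) (k2_adj _ _ (by decide)) (k2_adj _ _ (by decide))
    (k2_adj _ _ (by decide)) (k2_adj _ _ (by decide)) (by unfold k2_dis; decide)
  have q1 := hq 1 5 2 3 4 6 (k2_adj _ _ (by decide)) (k2_adj _ _ (by decide))
    (k2_adj _ _ (by decide)) (k2_adj _ _ (by decide)) (k2_adj _ _ (by decide))
    (k2_adj _ _ (by decide)) (k2_adj _ _ (by decide)) (by unfold k2_dis; decide)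
  have q2 := hq 1 6 2 3 4 5 (k2_adj _ _ (by decide)) (k2_adj _ _ (by decide))
    (k2_adj _ _ (by decide)) (k2_adj _ _ (by decide)) (k2_adj _ _ (by decide))
    (k2_adj _ _ (by decide)) (k2_adj _ _ (by decide)) (by unfold k2_dis; decide)
  have q3 := hq 2 4 1 3 5 6 (k2_adj _ _ (by decide)) (k2_adj _ _ (by decide))
    (k2_adj _ _ (by decide)) (k2_adj _ _ (by decide)) (k2_adj _ _ (by decide))
    (k2_adj _ _ (by decide)) (k2_adj _ _ (by decide)) (by unfold k2_dis; decide)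
  have q4 := hq 2 5 1 3 4 6 (k2_adj _ _ (by decide)) (k2_adj _ _ (by decide))
    (k2_adj _ _ (by decide)) (k2_adj _ _ (by decide)) (k2_adj _ _ (by decide))
    (k2_adj _ _ (by decide)) (k2_adj _ _ (by decide)) (by unfold k2_dis; decide)
  have q5 := hq 2 6 1 3 4 5 (k2_adj _ _ (by decide)) (k2_adj _ _ (by decide))
    (k2_adj _ _ (by decide)) (k2_adj _ _ (by decide)) (k2_adj _ _ (by decide))
    (k2_adj _ _ (by decide)) (k2_adj _ _ (by decide)) (by unfold k2_dis; decide)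
  have q6 := hq 3 4 1 2 5 6 (k2_adj _ _ (by decide)) (k2_adj _ _ (by decide))
    (k2_adj _ _ (by decide)) (k2_adj _ _ (by decide)) (k2_adj _ _ (by decide))
    (k2_adj _ _ (by decide)) (k2_adj _ _ (by decide)) (by unfold k2_dis; decide)
  have q7 := hq 3 5 1 2 4 6 (k2_adj _ _ (by decide)) (k2_adj _ _ (by decide))
    (k2_adj _ _ (by decide)) (k2_adj _ _ (by decide)) (k2_adj _ _ (by decide))
    (k2_adj _ _ (by decide)) (k2_adj _ _ (by decide)) (by unfold k2_dis; decide)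
  have q8 := hq 3 6 1 2 4 5 (k2_adj _ _ (by decide)) (k2_adj _ _ (by decide))
    (k2_adj _ _ (by decide)) (k2_adj _ _ (by decide)) (k2_adj _ _ (by decide))
    (k2_adj _ _ (by decide)) (k2_adj _ _ (by decide)) (by unfold k2_dis; decide)
  have f0 := hf 1 4 2 5 (k2_adj _ _ (by decide)) (k2_adj _ _ (by decide)) (by decide)
    (by decide) (by decide) (by decide)
  have f1 := hf 1 5 2 4 (k2_adj _ _ (by decide)) (k2_adj _ _ (by decide)) (by decide)
    (by decide) (by decide) (by decide)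
  have f2 := hf 1 4 2 6 (k2_adj _ _ (by decide)) (k2_adj _ _ (by decide)) (by decide)
    (by decide) (by decide) (by decide)
  have f3 := hf 1 6 2 4 (k2_adj _ _ (by decide)) (k2_adj _ _ (by decide)) (by decide)
    (by decide) (by decide) (by decide)
  have f4 := hf 1 5 2 6 (k2_adj _ _ (by decide)) (k2_adj _ _ (by decide)) (by decide)
    (by decide) (by decide) (by decide)
  have f5 := hf 1 6 2 5 (k2_adj _ _ (by decide)) (k2_adj _ _ (by decide)) (by decide)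
    (by decide) (by decide) (by decide)
  have f6 := hf 1 4 3 5 (k2_adj _ _ (by decide)) (k2_adj _ _ (by decide)) (by decide)
    (by decide) (by decide) (by decide)
  have f7 := hf 1 5 3 4 (k2_adj _ _ (by decide)) (k2_adj _ _ (by decide)) (by decide)
    (by decide) (by decide) (by decide)
  have f8 := hf 1 4 3 6 (k2_adj _ _ (by decide)) (k2_adj _ _ (by decide)) (by decide)
    (by decide) (by decide) (by decide)
  have f9 := hf 1 6 3 4 (k2_adj _ _ (by decide)) (k2_adj _ _ (by decide)) (by decide)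
    (by decide) (by decide) (by decide)
  have f10 := hf 1 5 3 6 (k2_adj _ _ (by decide)) (k2_adj _ _ (by decide)) (by decide)
    (by decide) (by decide) (by decide)
  have f11 := hf 1 6 3 5 (k2_adj _ _ (by decide)) (k2_adj _ _ (by decide)) (by decide)
    (by decide) (by decide) (by decide)
  have f12 := hf 2 4 3 5 (k2_adj _ _ (by decide)) (k2_adj _ _ (by decide)) (by decide)
    (by decide) (by decide) (by decide)
  have f13 := hf 2 5 3 4 (k2_adj _ _ (by decide)) (k2_adj _ _ (by decide)) (by decide)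
    (by decide) (by decide) (by decide)
  have f14 := hf 2 4 3 6 (k2_adj _ _ (by decide)) (k2_adj _ _ (by decide)) (by decide)
    (by decide) (by decide) (by decide)
  have f15 := hf 2 6 3 4 (k2_adj _ _ (by decide)) (k2_adj _ _ (by decide)) (by decide)
    (by decide) (by decide) (by decide)
  have f16 := hf 2 5 3 6 (k2_adj _ _ (by decide)) (k2_adj _ _ (by decide)) (by decide)
    (by decide) (by decide) (by decide)
  have f17 := hf 2 6 3 5 (k2_adj _ _ (by decide)) (k2_adj _ _ (by decide)) (by decide)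
    (by decide) (by decide) (by decide)
  have a24 := h.anti 2 4 (by decide)
  have a25 := h.anti 2 5 (by decide)
  have a26 := h.anti 2 6 (by decide)
  have a34 := h.anti 3 4 (by decide)
  have a35 := h.anti 3 5 (by decide)
  have a36 := h.anti 3 6 (by decide)
  have a45 := h.anti 4 5 (by decide)
  have a46 := h.anti 4 6 (by decide)
  have a56 := h.anti 5 6 (by decide)
  have key : (1 : ZMod 2) = 0 := by
    linear_combination (q0 + q1 + q2 + q3 + q4 + q5 + q6 + q7 + q8) -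
      (f0 + f1 + f2 + f3 + f4 + f5 + f6 + f7 + f8 + f9 + f10 + f11 + f12 + f13 + f14 + f15 + f16 +
      f17) -
      ((2) * a24 + (2) * a25 + (2) * a26 + (4) * a34 + (4) * a35 + (4) * a36 + (3) * a45 +
      (3) * a46 + (3) * a56) +
      (
        (-1) * E s(0, 1) s(2, 5) + (-1) * E s(0, 1) s(2, 6) + (-1) * E s(0, 1) s(3, 5) +
        (-1) * E s(0, 1) s(3, 6) + (-1) * E s(0, 4) s(2, 5) + (-1) * E s(0, 4) s(2, 6) +
        (-1) * E s(0, 4) s(3, 5) + (-1) * E s(0, 4) s(3, 6) + (-1) * E s(0, 1) s(2, 4) +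
        (-1) * E s(0, 1) s(3, 4) + (-1) * E s(0, 5) s(2, 4) + (-1) * E s(0, 5) s(2, 6) +
        (-1) * E s(0, 5) s(3, 4) + (-1) * E s(0, 5) s(3, 6) + (-1) * E s(0, 6) s(2, 4) +
        (-1) * E s(0, 6) s(2, 5) + (-1) * E s(0, 6) s(3, 4) + (-1) * E s(0, 6) s(3, 5) +
        (-1) * E s(0, 2) s(1, 5) + (-1) * E s(0, 2) s(1, 6) + (-1) * E s(0, 2) s(3, 5) +
        (-1) * E s(0, 2) s(3, 6) + (-1) * E s(0, 4) s(1, 5) + (-1) * E s(0, 4) s(1, 6) +
        (-1) * E s(0, 2) s(1, 4) + (-1) * E s(0, 2) s(3, 4) + (-1) * E s(0, 5) s(1, 4) +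
        (-1) * E s(0, 5) s(1, 6) + (-1) * E s(0, 6) s(1, 4) + (-1) * E s(0, 6) s(1, 5) +
        (-1) * E s(0, 3) s(1, 5) + (-1) * E s(0, 3) s(1, 6) + (-1) * E s(0, 3) s(2, 5) +
        (-1) * E s(0, 3) s(2, 6) + (-1) * E s(0, 3) s(1, 4) + (-1) * E s(0, 3) s(2, 4) +
        (-3) * L 1 2 + (-2) * L 1 5 + (-1) * w s(1, 4) 2 + (-1) * w s(1, 4) 5 +
        (-1) * w s(2, 5) 1 + (-1) * w s(2, 5) 4 + (-2) * L 1 4 + (-1) * w s(1, 5) 2 +
        (-1) * w s(1, 5) 4 + (-1) * w s(2, 4) 1 + (-1) * w s(2, 4) 5 + (-2) * L 1 6 +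
        (-1) * w s(1, 4) 6 + (-1) * w s(2, 6) 1 + (-1) * w s(2, 6) 4 + (-1) * w s(1, 6) 2 +
        (-1) * w s(1, 6) 4 + (-1) * w s(2, 4) 6 + (-1) * w s(1, 5) 6 + (-1) * w s(2, 6) 5 +
        (-1) * w s(1, 6) 5 + (-1) * w s(2, 5) 6 + (-3) * L 1 3 + (-1) * w s(1, 4) 3 +
        (-1) * w s(3, 5) 1 + (-1) * w s(3, 5) 4 + (-1) * w s(1, 5) 3 + (-1) * w s(3, 4) 1 +
        (-1) * w s(3, 4) 5 + (-1) * w s(3, 6) 1 + (-1) * w s(3, 6) 4 + (-1) * w s(1, 6) 3 +
        (-1) * w s(3, 4) 6 + (-1) * w s(3, 6) 5 + (-1) * w s(3, 5) 6 + (-3) * L 2 3 +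
        (-1) * w s(2, 4) 3 + (-1) * w s(3, 5) 2 + (-1) * w s(2, 5) 3 + (-1) * w s(3, 4) 2 +
        (-1) * w s(3, 6) 2 + (-1) * w s(2, 6) 3 + (2) * L 3 4 + (2) * L 3 5 + (2) * L 3 6 +
        (-13)) * h2
  exact absurd key (by decide)

end H46R
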