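import Pool.Agent.Lib.H46R.Defs

/-! # H46R, M1: minors give walk maps -/

set_option autoImplicit false

namespace H46R

variable {V W : Type}

/-- in a connected induced subgraph there is a walk of `G` inside the set (map the walk of the
induced graph by `SimpleGraph.Embedding.induce B`). -/
theorem walk_in {G : SimpleGraph V} {B : Set V} (h : (G.induce B).Connected) {x y : V}
    (hx : x ∈ B) (hy : y ∈ B) : ∃ p : G.Walk x y, ∀ z ∈ p.support, z ∈ B := by
  obtain ⟨p⟩ := h.preconnected ⟨x, hx⟩ ⟨y, hy⟩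
  have key : ∀ z ∈ (p.map (SimpleGraph.Embedding.induce B).toHom).support, z ∈ B := by
    intro z hz
    rw [SimpleGraph.Walk.support_map, List.mem_map] at hz
    obtain ⟨a, -, rfl⟩ := hz
    exact a.2
  exact ⟨p.map (SimpleGraph.Embedding.induce B).toHom, key⟩

/-- Proof. `B` the branch sets, `r w` any element of `B w` (connected sets are nonempty), injective
by disjointness. `S h := {x | ∃ w ∈ h, x ∈ B w}`. For an edge `w w'` of `H` take `x ∈ B w`,
`y ∈ B w'` adjacent, and the walk `r w → x` in `B w`, the edge `x y`, the walk `y → r w'` in `B w'`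
(`walk_in`, `Walk.append`, `Walk.mem_support_append_iff`). Disjoint edges: different branch sets are
disjoint. -/
theorem walkMap_of_isMinor {H : SimpleGraph W} {G : SimpleGraph V} (h : IsMinor H G) :
    WalkMap H G := by
  obtain ⟨B, hconn, hdis, hadj⟩ := h
  have hne : ∀ w, ∃ x, x ∈ B w := fun w => by
    obtain ⟨a⟩ := (hconn w).nonempty
    exact ⟨a.1, a.2⟩
  choose r hr using hne
  refine ⟨r, fun h => {x | ∃ w ∈ h, x ∈ B w}, ?_, ?_, ?_⟩
  · intro w w' hww
    by_contra hcon
    exact Set.disjoint_left.1 (hdis w w' hcon) (hr w) (hww ▸ hr w')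
  · intro w w' hww
    obtain ⟨x, hx, y, hy, hxy⟩ := hadj w w' hww
    obtain ⟨p, hp⟩ := walk_in (hconn w) (hr w) hx
    obtain ⟨q, hq⟩ := walk_in (hconn w') hy (hr w')
    refine ⟨p.append (SimpleGraph.Walk.cons hxy q), ?_⟩
    intro z hz
    rw [SimpleGraph.Walk.mem_support_append_iff] at hz
    rcases hz with hz | hz
    · exact ⟨w, Sym2.mem_mk_left w w', hp z hz⟩
    · rw [SimpleGraph.Walk.support_cons, List.mem_cons] at hz
      rcases hz with rfl | hz
      · exact ⟨w, Sym2.mem_mk_left w w', hx⟩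
      · exact ⟨w', Sym2.mem_mk_right w w', hq z hz⟩
  · intro h _ h' _ hd
    rw [Set.disjoint_left]
    rintro x ⟨w, hw, hx⟩ ⟨w', hw', hx'⟩
    by_cases hww : w = w'
    · subst hww
      exact hd w hw hw'
    · exact Set.disjoint_left.1 (hdis w w' hww) hx hx'

end H46R
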