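import Pool.Agent.Lib.H46R.C2
import Pool.Agent.Lib.H46R.C3
import Pool.Agent.Lib.H46R.C4
import Pool.Agent.Lib.H46R.C5
import Pool.Agent.Lib.H46R.K1
import Pool.Agent.Lib.H46R.K2
import Pool.Agent.Lib.H46R.F2
import Pool.Agent.Lib.H46R.M1
import Pool.Agent.Lib.H46R.G7

/-! # H46R: the theorem of Conway-Gordon and Sachs for polygonal embeddings -/

set_option autoImplicit false

namespace H46R

open H46K H97G

variable {V W : Type} [Fintype V] [DecidableEq V] [Fintype W] [DecidableEq W]

/-- every linking system on `G` has an odd pair of chains -/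
def AllOdd (G : SimpleGraph V) : Prop :=
  ∀ E L w, LS G E L w → HasOddChains G E

theorem AllOdd.of_walkMap {H : SimpleGraph W} {G : SimpleGraph V} (h : AllOdd H)
    (hw : WalkMap H G) : AllOdd G := by
  intro E L w hL
  obtain ⟨r, P, hm⟩ := dcm_of_walkMap hw
  exact hasOddChains_push hm (h _ _ _ (ls_pull hL hm))

theorem allOdd_K6 : AllOdd K6 := fun _ _ _ h => odd_K6 h

theorem allOdd_K331 : AllOdd K331 := fun _ _ _ h => odd_K331 h

theorem allOdd_of_petersen {G : SimpleGraph V} (h : HasPetersenMinor G) : AllOdd G := by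
  rcases h with h | h | h | h | h | h | h
  · exact allOdd_K6.of_walkMap (walkMap_of_isMinor h)
  · exact allOdd_K331.of_walkMap (walkMap_of_isMinor h)
  · exact (allOdd_K6.of_walkMap walkMap_P7).of_walkMap (walkMap_of_isMinor h)
  · exact (allOdd_K6.of_walkMap walkMap_K44m).of_walkMap (walkMap_of_isMinor h)
  · exact (allOdd_K6.of_walkMap walkMap_P8).of_walkMap (walkMap_of_isMinor h)
  · exact (allOdd_K6.of_walkMap walkMap_P9).of_walkMap (walkMap_of_isMinor h)
  · exact (allOdd_K6.of_walkMap walkMap_P10).of_walkMap (walkMap_of_isMinor h)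

/-- **Conway-Gordon, Sachs**: a graph with a minor in the Petersen family has an odd link in every
embedding. -/
theorem hasOdd_of_petersen {G : SimpleGraph V} (h : HasPetersenMinor G) (f : SpatialGraph G)
    (d : P3) (hd : Generic f d) : HasOdd f d := by
  obtain ⟨L, w, hL⟩ := ls_EE f d hd
  exact hasOdd_of_chains f d (allOdd_of_petersen h _ _ _ hL)

end H46R
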