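import Pool.Agent.Lib.H46R.X1

/-! # H46R, X2: every embedding has a generic direction -/

set_option autoImplicit false

namespace H46R

open H46K

/-- Proof: the submodules `span {s.1 - x, s.2 - x}` have dimension at most 2, so none is `⊤` (the
dimension of `P3` is 3), nor is `⊥` (to get `d ≠ 0`); a real vector space is not a finite union of
proper subspaces (`Subspace.biUnion_ne_univ_of_top_notMem` or similar). -/
theorem exists_direction (A : Set (P3 × P3 × P3)) (hA : A.Finite) :
    ∃ d : P3, d ≠ 0 ∧ ∀ t ∈ A, d ∉ Submodule.span ℝ {t.2.1 - t.1, t.2.2 - t.1} := by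
  classical
  set S : Finset (Submodule ℝ P3) := insert ⊥ (hA.toFinset.image fun t =>
    Submodule.span ℝ {t.2.1 - t.1, t.2.2 - t.1}) with hS
  have hdim : Module.finrank ℝ P3 = 3 := by
    simp [P3]
  have htop : ⊤ ∉ S := by
    intro h
    rw [hS, Finset.mem_insert, Finset.mem_image] at h
    rcases h with h | ⟨t, -, h⟩
    · have h1 : Module.finrank ℝ (⊤ : Submodule ℝ P3) = 0 := by
        rw [h]
        exact finrank_bot ℝ P3
      rw [finrank_top, hdim] at h1
      omega
    · have h1 : Module.finrank ℝ (Submodule.span ℝ (({t.2.1 - t.1, t.2.2 - t.1} : Finset P3) : Set P3)) ≤ 2 :=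
        (finrank_span_finset_le_card _).trans Finset.card_le_two
      have h2 : Submodule.span ℝ (({t.2.1 - t.1, t.2.2 - t.1} : Finset P3) : Set P3) = ⊤ := by
        rw [← h]
        congr 1
        simp
      rw [h2, finrank_top, hdim] at h1
      omega
  have hne := Subspace.biUnion_ne_univ_of_top_notMem htop
  obtain ⟨d, hd⟩ := (Set.ne_univ_iff_exists_notMem _).1 hne
  refine ⟨d, ?_, ?_⟩
  · rintro rfl
    apply hd
    exact Set.mem_iUnion₂.2 ⟨⊥, by simp [hS], by simp⟩
  · intro t ht hdt
    apply hd
    refine Set.mem_iUnion₂.2 ⟨Submodule.span ℝ {t.2.1 - t.1, t.2.2 - t.1}, ?_, hdt⟩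
    rw [hS, Finset.mem_insert, Finset.mem_image]
    exact Or.inr ⟨t, hA.mem_toFinset.2 ht, rfl⟩

/-- Proof. `exists_direction` for the finite set of the triples `(x, s)`, `x` an entry of an arc, `s` a
side of an arc. If `x + r • d ∈ segment s`, then `r • d` is in the span of `s.1 - x`, `s.2 - x`, so
`r = 0` and `point_side` applies. -/
theorem exists_generic {V : Type} [Fintype V] [DecidableEq V] {G : SimpleGraph V}
    (f : SpatialGraph G) : ∃ d, Generic f d := by
  classical
  set A : Set (P3 × P3 × P3) := ⋃ u : V, ⋃ v : V, ⋃ u' : V, ⋃ v' : V,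
    {t | t.1 ∈ f.arc u v ∧ (t.2.1, t.2.2) ∈ osides (f.arc u' v')} with hA
  have hfin : A.Finite := by
    refine Set.finite_iUnion fun u => Set.finite_iUnion fun v => Set.finite_iUnion fun u' =>
      Set.finite_iUnion fun v' => ?_
    refine ((List.finite_toSet (f.arc u v)).prod (List.finite_toSet (osides (f.arc u' v')))).subset ?_
    rintro ⟨x, p, q⟩ ⟨h1, h2⟩
    exact ⟨h1, h2⟩
  obtain ⟨d, hd0, hd⟩ := exists_direction A hfin
  refine ⟨d, hd0, ?_⟩
  intro u v u' v' h h' x hx s hs r hr
  have hmem : (x, s.1, s.2) ∈ A := by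
    rw [hA]
    simp only [Set.mem_iUnion]
    exact ⟨u, v, u', v', hx, hs⟩
  have h1 := hd _ hmem
  have hr0 : r = 0 := by
    by_contra hr0
    apply h1
    have h2 : r • d ∈ Submodule.span ℝ {s.1 - x, s.2 - x} := by
      obtain ⟨a, b, -, -, hab, heq⟩ := hr
      have h3 : r • d = a • (s.1 - x) + b • (s.2 - x) := by
        have h4 : r • d = (a • s.1 + b • s.2) - x := by
          rw [heq]
          abel
        have h5 : x = (a + b) • x := by rw [hab, one_smul]
        rw [h4]
        conv_lhs => rw [h5]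
        module
      rw [h3]
      exact Submodule.add_mem _ (Submodule.smul_mem _ _ (Submodule.subset_span (by simp)))
        (Submodule.smul_mem _ _ (Submodule.subset_span (by simp)))
    have h3 := Submodule.smul_mem _ r⁻¹ h2
    rwa [smul_smul, inv_mul_cancel₀ hr0, one_smul] at h3
  refine ⟨hr0, ?_⟩
  rw [hr0, zero_smul, add_zero] at hr
  exact point_side f h h' x hx s hs hr

end H46R
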