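import Pool.Agent.Lib.H46R.Fin
import Pool.Agent.Lib.H46R.X2
import Pool.Agent.Lib.H97G.Fin

/-! # H46R: the theorem on intrinsically knotted graphs -/

set_option autoImplicit false

namespace H46R

open H46K H97G

/-- Every embedding of an intrinsically knotted graph has two odd links, or some intrinsically
knotted graph with at most as many vertices has no minor in the Petersen family. -/
theorem final2 {V : Type} [Fintype V] [DecidableEq V] (G : SimpleGraph V) (hIK : IsIK G) :
    (∀ f : SpatialGraph G, (∃ d, Generic f d) ∧ ∀ d, Generic f d → TwoOdd f d) ∨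
      ∃ (W : Type) (_ : Fintype W) (H : SimpleGraph W), Fintype.card W ≤ Fintype.card V ∧
        IsIK H ∧ ¬ HasPetersenMinor H := by
  classical
  by_contra hc
  rw [not_or] at hc
  obtain ⟨h1, h2⟩ := hc
  have h3 : ∀ (W : Type) (_ : Fintype W) (H : SimpleGraph W), Fintype.card W ≤ Fintype.card V →
      IsIK H → HasPetersenMinor H := by
    intro W _ H hW hH
    by_contra hn
    exact h2 ⟨W, _, H, hW, hH, hn⟩
  apply h1
  intro f
  refine ⟨exists_generic f, ?_⟩
  intro d hd
  rcases H97G.final G hIK f d hd with h | h | ⟨-, n, H, g, d', hn, hH, hg, hno⟩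
  · exact h
  · exact absurd (hasOdd_of_petersen (h3 V inferInstance G le_rfl hIK) f d hd) h
  · exact absurd (hasOdd_of_petersen (h3 (Fin n) inferInstance H (by simpa using hn.le) hH) g d' hg)
      hno

end H46R
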