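import Pool.Agent.Lib.H46R.Fin2

/-! # H46R: the theorem on intrinsically knotted graphs, sharper form -/

set_option autoImplicit false

namespace H46R

open H46K H97G

/-- For every embedding of an intrinsically knotted graph: there are two odd links; or there is no
odd link and the graph has no Petersen family minor; or the graph is not 3-connected and a smaller
intrinsically knotted graph has no Petersen family minor. -/
theorem final3 {V : Type} [Fintype V] [DecidableEq V] (G : SimpleGraph V) (hIK : IsIK G)
    (f : SpatialGraph G) :
    (∃ d, Generic f d) ∧ ∀ d, Generic f d → TwoOdd f d ∨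
      (¬ HasOdd f d ∧ ¬ HasPetersenMinor G) ∨
      (¬ ThreeConn G ∧ ∃ (W : Type) (_ : Fintype W) (H : SimpleGraph W),
        Fintype.card W < Fintype.card V ∧ IsIK H ∧ ¬ HasPetersenMinor H) := by
  classical
  refine ⟨exists_generic f, ?_⟩
  intro d hd
  rcases H97G.final G hIK f d hd with h | h | ⟨h3, n, H, g, d', hn, hH, hg, hno⟩
  · exact Or.inl h
  · exact Or.inr (Or.inl ⟨h, fun hp => h (hasOdd_of_petersen hp f d hd)⟩)
  · refine Or.inr (Or.inr ⟨h3, Fin n, inferInstance, H, by simpa using hn, hH, ?_⟩)
    intro hp
    exact hno (hasOdd_of_petersen hp g d' hg)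

end H46R
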