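import Pool.Agent.Lib.H46R.Defs

/-! # H46R, G0: definitions for the geometric part -/

set_option autoImplicit false

namespace H46R

open H46K

open Classical in
/-- `1` if `a < b` -/
noncomputable def lt2 (a b : ℝ) : ZMod 2 := if a < b then 1 else 0

/-- the height of the line through `a`, `b` at the abscissa `x` -/
noncomputable def hgt (a b : ℝ × ℝ) (x : ℝ) : ℝ :=
  (a.2 * (b.1 - x) + b.2 * (x - a.1)) / (b.1 - a.1)

/-- `x` is strictly between the abscissas of `a` and `b` -/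
def Btw (a b : ℝ × ℝ) (x : ℝ) : Prop := (a.1 < x ∧ x < b.1) ∨ (b.1 < x ∧ x < a.1)

open Classical in
/-- `1` if the vertical upward ray from `c` crosses the segment `a b` -/
noncomputable def ray (a b c : ℝ × ℝ) : ZMod 2 :=
  if Btw a b c.1 ∧ c.2 < hgt a b c.1 then 1 else 0

/-- the two segments of the plane meet -/
def Meet (a b c e : ℝ × ℝ) : Prop := ∃ z, z ∈ segment ℝ a b ∧ z ∈ segment ℝ c e

/-- the four points have different abscissas -/
def Dist4 (a b c e : ℝ × ℝ) : Prop :=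
  a.1 ≠ b.1 ∧ a.1 ≠ c.1 ∧ a.1 ≠ e.1 ∧ b.1 ≠ c.1 ∧ b.1 ≠ e.1 ∧ c.1 ≠ e.1

end H46R
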