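import Pool.Agent.Lib.H46R.G0

/-! # H46R, G1: segments as graphs -/

set_option autoImplicit false

namespace H46R

theorem hgt_symm (a b : ℝ × ℝ) (x : ℝ) : hgt b a x = hgt a b x := by
  unfold hgt
  rw [← neg_div_neg_eq]
  congr 1 <;> ring

theorem btw_symm (a b : ℝ × ℝ) (x : ℝ) : Btw b a x ↔ Btw a b x := or_comm

theorem ray_symm (a b c : ℝ × ℝ) : ray b a c = ray a b c := by
  have h : (Btw b a c.1 ∧ c.2 < hgt b a c.1) ↔ (Btw a b c.1 ∧ c.2 < hgt a b c.1) := by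
    rw [btw_symm, hgt_symm]
  classical
  unfold ray
  exact if_congr h rfl rfl

theorem meet_symm_left (a b c e : ℝ × ℝ) : Meet b a c e ↔ Meet a b c e := by
  unfold Meet
  rw [segment_symm]

theorem meet_comm (a b c e : ℝ × ℝ) : Meet c e a b ↔ Meet a b c e := by
  unfold Meet
  constructor <;> rintro ⟨z, h1, h2⟩ <;> exact ⟨z, h2, h1⟩

theorem hgt_left (a b : ℝ × ℝ) (h : a.1 ≠ b.1) : hgt a b a.1 = a.2 := by
  have h' : b.1 - a.1 ≠ 0 := sub_ne_zero.2 h.symm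
  unfold hgt
  field_simp
  ring

theorem hgt_right (a b : ℝ × ℝ) (h : a.1 ≠ b.1) : hgt a b b.1 = b.2 := by
  rw [← hgt_symm, hgt_left _ _ h.symm]

/-- Proof: `z = (1 - t) a + t b` with `t = (z.1 - a.1) / (b.1 - a.1)`. -/
theorem mem_segment_iff' (a b z : ℝ × ℝ) (h : a.1 < b.1) :
    z ∈ segment ℝ a b ↔ a.1 ≤ z.1 ∧ z.1 ≤ b.1 ∧ z.2 = hgt a b z.1 := by
  have h' : 0 < b.1 - a.1 := sub_pos.2 h
  have h'' : b.1 - a.1 ≠ 0 := h'.ne'
  constructor
  · rintro ⟨s, t, hs, ht, hst, rfl⟩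
    have hs' : s = 1 - t := by linarith
    subst hs'
    simp only [Prod.fst_add, Prod.smul_fst, smul_eq_mul, Prod.snd_add, Prod.smul_snd]
    refine ⟨?_, ?_, ?_⟩
    · nlinarith [mul_nonneg ht h'.le]
    · nlinarith [mul_nonneg hs h'.le]
    · unfold hgt
      rw [eq_div_iff h'']
      ring
  · rintro ⟨h1, h2, h3⟩
    refine ⟨(b.1 - z.1) / (b.1 - a.1), (z.1 - a.1) / (b.1 - a.1), div_nonneg (by linarith) h'.le,
      div_nonneg (by linarith) h'.le, ?_, ?_⟩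
    · rw [← add_div, div_eq_one_iff_eq h'']
      ring
    · ext
      · simp only [Prod.fst_add, Prod.smul_fst, smul_eq_mul]
        field_simp
        ring
      · simp only [Prod.snd_add, Prod.smul_snd, smul_eq_mul]
        rw [h3]
        unfold hgt
        field_simp

theorem g1_affine (a b : ℝ × ℝ) : ∃ p q : ℝ, ∀ x, hgt a b x = p + q * x := by
  refine ⟨(a.2 * b.1 - b.2 * a.1) / (b.1 - a.1), (b.2 - a.2) / (b.1 - a.1), fun x => ?_⟩
  unfold hgt
  ring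

/-- affine functions: if the difference of two heights has opposite signs at `x₁ < x₂` there is a
zero between; explicit: `x = (x₁ D₂ - x₂ D₁) / (D₂ - D₁)`, `D i = hgt a b (x i) - hgt c e (x i)`. -/
theorem exists_zero (a b c e : ℝ × ℝ) (x₁ x₂ : ℝ) (hx : x₁ ≤ x₂)
    (h : (hgt a b x₁ ≤ hgt c e x₁ ∧ hgt c e x₂ ≤ hgt a b x₂) ∨
      (hgt c e x₁ ≤ hgt a b x₁ ∧ hgt a b x₂ ≤ hgt c e x₂)) :
    ∃ x, x₁ ≤ x ∧ x ≤ x₂ ∧ hgt a b x = hgt c e x := by
  obtain ⟨p, q, hpq⟩ := g1_affine a b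
  obtain ⟨r, s, hrs⟩ := g1_affine c e
  simp only [hpq, hrs] at h ⊢
  have hcont : ContinuousOn (fun x : ℝ => (p + q * x) - (r + s * x)) (Set.Icc x₁ x₂) := by fun_prop
  rcases h with ⟨h1, h2⟩ | ⟨h1, h2⟩
  · obtain ⟨x, hx1, hx2⟩ := intermediate_value_Icc hx hcont
      (show (0 : ℝ) ∈ Set.Icc _ _ from ⟨by linarith, by linarith⟩)
    exact ⟨x, hx1.1, hx1.2, by simp only at hx2; linarith⟩
  · obtain ⟨x, hx1, hx2⟩ := intermediate_value_Icc' hx hcont
      (show (0 : ℝ) ∈ Set.Icc _ _ from ⟨by linarith, by linarith⟩)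
    exact ⟨x, hx1.1, hx1.2, by simp only at hx2; linarith⟩

/-- convexity: if the difference has the same strict sign at `x₁` and `x₂` it has it in between. -/
theorem no_zero (a b c e : ℝ × ℝ) (x₁ x₂ x : ℝ) (h1 : x₁ ≤ x) (h2 : x ≤ x₂)
    (h : (hgt a b x₁ < hgt c e x₁ ∧ hgt a b x₂ < hgt c e x₂) ∨
      (hgt c e x₁ < hgt a b x₁ ∧ hgt c e x₂ < hgt a b x₂)) :
    hgt a b x ≠ hgt c e x := by
  obtain ⟨p, q, hpq⟩ := g1_affine a b
  obtain ⟨r, s, hrs⟩ := g1_affine c e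
  simp only [hpq, hrs] at h ⊢
  intro heq
  have h5 : (p - r) + (q - s) * x = 0 := by linarith
  rcases h with ⟨h3, h4⟩ | ⟨h3, h4⟩
  · rcases le_total 0 (q - s) with hq | hq
    · have := mul_le_mul_of_nonneg_left h2 hq
      nlinarith
    · have := mul_le_mul_of_nonpos_left h1 hq
      nlinarith
  · rcases le_total 0 (q - s) with hq | hq
    · have := mul_le_mul_of_nonneg_left h1 hq
      nlinarith
    · have := mul_le_mul_of_nonpos_left h2 hq
      nlinarith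

end H46R
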