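import Pool.Agent.Lib.H46R.G1

/-! # H46R, G2: crossing parity of two segments of the plane -/

set_option autoImplicit false

namespace H46R

theorem g2_lt2_pos {x y : ℝ} (h : x < y) : lt2 x y = 1 := by
  unfold lt2
  rw [if_pos h]

theorem g2_lt2_neg {x y : ℝ} (h : y < x) : lt2 x y = 0 := by
  unfold lt2
  rw [if_neg (not_lt.2 h.le)]

theorem g2_lt2_swap {x y : ℝ} (h : x ≠ y) : lt2 x y = lt2 y x + 1 := by
  rcases lt_or_gt_of_ne h with h | h
  · rw [g2_lt2_pos h, g2_lt2_neg h]; decide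
  · rw [g2_lt2_pos h, g2_lt2_neg h]; decide

theorem g2_ray_out {a b c : ℝ × ℝ} (h : ¬ Btw a b c.1) : ray a b c = 0 := by
  unfold ray
  rw [if_neg (fun h' => h h'.1)]

theorem g2_ray_pos {a b c : ℝ × ℝ} (h : Btw a b c.1) (h' : c.2 < hgt a b c.1) :
    ray a b c = 1 := by
  unfold ray
  rw [if_pos ⟨h, h'⟩]

theorem g2_ray_neg {a b c : ℝ × ℝ} (h' : hgt a b c.1 < c.2) :
    ray a b c = 0 := by
  unfold ray
  rw [if_neg (fun h => lt_asymm h' h.2)]

open Classical in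
/-- Case `a.1 < b.1`, `c.1 < e.1`, `a.1 < c.1`. Proof. `b.1 < c.1`: no common point (abscissas,
`mem_segment_iff'`), all rays `0`, the four `lt2` are `1`. `c.1 < b.1 < e.1`: the common abscissas are
`[c.1, b.1]`; they meet iff `D = hgt a b - hgt c e` has opposite signs at `c.1`, `b.1` (`exists_zero`,
`no_zero`; `D(c.1) = hgt a b c.1 - c.2 ≠ 0` by `hc`, `D(b.1) = b.2 - hgt c e b.1 ≠ 0` by `hb`), while
`ray a b c = [D(c.1) > 0]`, `ray c e b = [D(b.1) < 0]`, `ray a b e = ray c e a = 0`, and the `lt2` sum is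
`3`. `e.1 < b.1`: common abscissas `[c.1, e.1]`, `ray a b c = [D(c.1) > 0]`, `ray a b e = [D(e.1) > 0]`,
the others `0`, `lt2` sum `1 + 1 + 0 + 0`. -/
theorem cross_wlog (a b c e : ℝ × ℝ) (hD : Dist4 a b c e) (h1 : a.1 < b.1) (h2 : c.1 < e.1)
    (h3 : a.1 < c.1) (hb : Btw c e b.1 → b.2 ≠ hgt c e b.1)
    (hc : Btw a b c.1 → c.2 ≠ hgt a b c.1) (he : Btw a b e.1 → e.2 ≠ hgt a b e.1) :
    (if Meet a b c e then (1 : ZMod 2) else 0) =
      (ray a b c + ray a b e) + (ray c e a + ray c e b) +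
        (lt2 a.1 c.1 + lt2 a.1 e.1 + (lt2 b.1 c.1 + lt2 b.1 e.1)) := by
  obtain ⟨-, -, -, d1, d2, -⟩ := hD
  have hae : a.1 < e.1 := h3.trans h2
  have hca : ¬ Btw c e a.1 := by
    rintro (⟨h, -⟩ | ⟨h, -⟩) <;> linarith
  have hla : hgt a b a.1 = a.2 := hgt_left a b h1.ne
  have hlb : hgt a b b.1 = b.2 := hgt_right a b h1.ne
  have hlc : hgt c e c.1 = c.2 := hgt_left c e h2.ne
  have hle : hgt c e e.1 = e.2 := hgt_right c e h2.ne
  have hmeet : Meet a b c e ↔ ∃ x, c.1 ≤ x ∧ x ≤ b.1 ∧ x ≤ e.1 ∧ hgt a b x = hgt c e x := by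
    constructor
    · rintro ⟨z, hz1, hz2⟩
      rw [mem_segment_iff' _ _ _ h1] at hz1
      rw [mem_segment_iff' _ _ _ h2] at hz2
      exact ⟨z.1, hz2.1, hz1.2.1, hz2.2.1, hz1.2.2.symm.trans hz2.2.2⟩
    · rintro ⟨x, hx1, hx2, hx3, hx4⟩
      refine ⟨(x, hgt a b x), ?_, ?_⟩
      · rw [mem_segment_iff' _ _ _ h1]
        exact ⟨by simp only; linarith, hx2, rfl⟩
      · rw [mem_segment_iff' _ _ _ h2]
        exact ⟨hx1, hx3, hx4⟩
  rw [g2_ray_out hca, g2_lt2_pos h3, g2_lt2_pos hae]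
  rcases lt_or_gt_of_ne d1 with hbc | hbc
  · -- b.1 < c.1
    have hbe : b.1 < e.1 := hbc.trans h2
    have hm : ¬ Meet a b c e := by
      rw [hmeet]
      rintro ⟨x, hx1, hx2, -, -⟩
      linarith
    have r1 : ¬ Btw a b c.1 := by rintro (⟨h, h'⟩ | ⟨h, h'⟩) <;> linarith
    have r2 : ¬ Btw a b e.1 := by rintro (⟨h, h'⟩ | ⟨h, h'⟩) <;> linarith
    have r3 : ¬ Btw c e b.1 := by rintro (⟨h, h'⟩ | ⟨h, h'⟩) <;> linarith
    rw [if_neg hm, g2_ray_out r1, g2_ray_out r2, g2_ray_out r3, g2_lt2_pos hbc, g2_lt2_pos hbe]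
    decide
  · have r1 : Btw a b c.1 := Or.inl ⟨h3, hbc⟩
    have hc' := hc r1
    rcases lt_or_gt_of_ne d2 with hbe | hbe
    · -- c.1 < b.1 < e.1
      have r2 : ¬ Btw a b e.1 := by rintro (⟨h, h'⟩ | ⟨h, h'⟩) <;> linarith
      have r3 : Btw c e b.1 := Or.inl ⟨hbc, hbe⟩
      have hb' := hb r3
      rw [g2_ray_out r2, g2_lt2_neg hbc, g2_lt2_pos hbe]
      rcases lt_or_gt_of_ne hc' with k1 | k1 <;> rcases lt_or_gt_of_ne hb' with k2 | k2
      · rw [g2_ray_pos r1 k1, g2_ray_pos r3 k2, if_pos]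
        · decide
        · rw [hmeet]
          obtain ⟨x, x1, x2, x3⟩ := exists_zero a b c e c.1 b.1 hbc.le
            (Or.inr ⟨by rw [hlc]; exact k1.le, by rw [hlb]; exact k2.le⟩)
          exact ⟨x, x1, x2, by linarith, x3⟩
      · rw [g2_ray_pos r1 k1, g2_ray_neg k2, if_neg]
        · decide
        · rw [hmeet]
          rintro ⟨x, x1, x2, -, x3⟩
          exact no_zero a b c e c.1 b.1 x x1 x2
            (Or.inr ⟨by rw [hlc]; exact k1, by rw [hlb]; exact k2⟩) x3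
      · rw [g2_ray_neg k1, g2_ray_pos r3 k2, if_neg]
        · decide
        · rw [hmeet]
          rintro ⟨x, x1, x2, -, x3⟩
          exact no_zero a b c e c.1 b.1 x x1 x2
            (Or.inl ⟨by rw [hlc]; exact k1, by rw [hlb]; exact k2⟩) x3
      · rw [g2_ray_neg k1, g2_ray_neg k2, if_pos]
        · decide
        · rw [hmeet]
          obtain ⟨x, x1, x2, x3⟩ := exists_zero a b c e c.1 b.1 hbc.le
            (Or.inl ⟨by rw [hlc]; exact k1.le, by rw [hlb]; exact k2.le⟩)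
          exact ⟨x, x1, x2, by linarith, x3⟩
    · -- e.1 < b.1
      have r2 : Btw a b e.1 := Or.inl ⟨hae, hbe⟩
      have r3 : ¬ Btw c e b.1 := by rintro (⟨h, h'⟩ | ⟨h, h'⟩) <;> linarith
      have he' := he r2
      rw [g2_ray_out r3, g2_lt2_neg hbc, g2_lt2_neg hbe]
      rcases lt_or_gt_of_ne hc' with k1 | k1 <;> rcases lt_or_gt_of_ne he' with k2 | k2
      · rw [g2_ray_pos r1 k1, g2_ray_pos r2 k2, if_neg]
        · decide
        · rw [hmeet]
          rintro ⟨x, x1, -, x2, x3⟩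
          exact no_zero a b c e c.1 e.1 x x1 x2
            (Or.inr ⟨by rw [hlc]; exact k1, by rw [hle]; exact k2⟩) x3
      · rw [g2_ray_pos r1 k1, g2_ray_neg k2, if_pos]
        · decide
        · rw [hmeet]
          obtain ⟨x, x1, x2, x3⟩ := exists_zero a b c e c.1 e.1 h2.le
            (Or.inr ⟨by rw [hlc]; exact k1.le, by rw [hle]; exact k2.le⟩)
          exact ⟨x, x1, by linarith, x2, x3⟩
      · rw [g2_ray_neg k1, g2_ray_pos r2 k2, if_pos]
        · decide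
        · rw [hmeet]
          obtain ⟨x, x1, x2, x3⟩ := exists_zero a b c e c.1 e.1 h2.le
            (Or.inl ⟨by rw [hlc]; exact k1.le, by rw [hle]; exact k2.le⟩)
          exact ⟨x, x1, by linarith, x2, x3⟩
      · rw [g2_ray_neg k1, g2_ray_neg k2, if_neg]
        · decide
        · rw [hmeet]
          rintro ⟨x, x1, -, x2, x3⟩
          exact no_zero a b c e c.1 e.1 x x1 x2
            (Or.inl ⟨by rw [hlc]; exact k1, by rw [hle]; exact k2⟩) x3

open Classical in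
theorem g2_step1 (a b c e : ℝ × ℝ) (hD : Dist4 a b c e) (h1 : a.1 < b.1) (h2 : c.1 < e.1)
    (ha : Btw c e a.1 → a.2 ≠ hgt c e a.1) (hb : Btw c e b.1 → b.2 ≠ hgt c e b.1)
    (hc : Btw a b c.1 → c.2 ≠ hgt a b c.1) (he : Btw a b e.1 → e.2 ≠ hgt a b e.1) :
    (if Meet a b c e then (1 : ZMod 2) else 0) =
      (ray a b c + ray a b e) + (ray c e a + ray c e b) +
        (lt2 a.1 c.1 + lt2 a.1 e.1 + (lt2 b.1 c.1 + lt2 b.1 e.1)) := by
  rcases lt_or_gt_of_ne hD.2.1 with h3 | h3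
  · exact cross_wlog a b c e hD h1 h2 h3 hb hc he
  · obtain ⟨d1, d2, d3, d4, d5, d6⟩ := hD
    have := cross_wlog c e a b ⟨d6, d2.symm, d4.symm, d3.symm, d5.symm, d1⟩ h2 h1 h3 he ha hb
    rw [if_congr (meet_comm a b c e) rfl rfl] at this
    rw [this, g2_lt2_swap d2, g2_lt2_swap d3, g2_lt2_swap d4, g2_lt2_swap d5]
    have h4 : (1 : ZMod 2) + 1 = 0 := by decide
    linear_combination (-2 : ZMod 2) * h4

open Classical in
theorem g2_step2 (a b c e : ℝ × ℝ) (hD : Dist4 a b c e) (h1 : a.1 < b.1)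
    (ha : Btw c e a.1 → a.2 ≠ hgt c e a.1) (hb : Btw c e b.1 → b.2 ≠ hgt c e b.1)
    (hc : Btw a b c.1 → c.2 ≠ hgt a b c.1) (he : Btw a b e.1 → e.2 ≠ hgt a b e.1) :
    (if Meet a b c e then (1 : ZMod 2) else 0) =
      (ray a b c + ray a b e) + (ray c e a + ray c e b) +
        (lt2 a.1 c.1 + lt2 a.1 e.1 + (lt2 b.1 c.1 + lt2 b.1 e.1)) := by
  have hD' := hD
  obtain ⟨d1, d2, d3, d4, d5, d6⟩ := hD
  rcases lt_or_gt_of_ne d6 with h2 | h2
  · exact g2_step1 a b c e hD' h1 h2 ha hb hc he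
  · have := g2_step1 a b e c ⟨d1, d3, d2, d5, d4, d6.symm⟩ h1 h2
      (by rw [btw_symm, hgt_symm]; exact ha) (by rw [btw_symm, hgt_symm]; exact hb) he hc
    have hm : Meet a b e c ↔ Meet a b c e := by
      rw [← meet_comm, meet_symm_left, meet_comm]
    rw [if_congr hm rfl rfl, ray_symm c e a, ray_symm c e b] at this
    rw [this]
    ring

open Classical in
/-- Proof. From `cross_wlog` by symmetry: exchange `a`, `b` (`ray_symm`, `meet_symm_left`), exchange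
`c`, `e`, exchange the two segments (`meet_comm`; `lt2 x y = lt2 y x + 1` for `x ≠ y`, four times). -/
theorem cross_formula (a b c e : ℝ × ℝ) (hD : Dist4 a b c e)
    (ha : Btw c e a.1 → a.2 ≠ hgt c e a.1) (hb : Btw c e b.1 → b.2 ≠ hgt c e b.1)
    (hc : Btw a b c.1 → c.2 ≠ hgt a b c.1) (he : Btw a b e.1 → e.2 ≠ hgt a b e.1) :
    (if Meet a b c e then (1 : ZMod 2) else 0) =
      (ray a b c + ray a b e) + (ray c e a + ray c e b) +
        (lt2 a.1 c.1 + lt2 a.1 e.1 + (lt2 b.1 c.1 + lt2 b.1 e.1)) := by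
  have hD' := hD
  obtain ⟨d1, d2, d3, d4, d5, d6⟩ := hD
  rcases lt_or_gt_of_ne d1 with h1 | h1
  · exact g2_step2 a b c e hD' h1 ha hb hc he
  · have := g2_step2 b a c e ⟨d1.symm, d4, d5, d2, d3, d6⟩ h1 hb ha
      (by rw [btw_symm, hgt_symm]; exact hc) (by rw [btw_symm, hgt_symm]; exact he)
    rw [if_congr (meet_symm_left a b c e) rfl rfl, ray_symm a b c, ray_symm a b e] at this
    rw [this]
    ring

theorem g2_uniq1 (a b c e : ℝ × ℝ) (hD : Dist4 a b c e) (h1 : a.1 < b.1) (h2 : c.1 < e.1)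
    (h3 : a.1 < c.1)
    (hc : Btw a b c.1 → c.2 ≠ hgt a b c.1)
    (z z' : ℝ × ℝ) (hz : z ∈ segment ℝ a b) (hz2 : z ∈ segment ℝ c e) (hz' : z' ∈ segment ℝ a b)
    (hz2' : z' ∈ segment ℝ c e) : z = z' := by
  obtain ⟨-, -, -, d1, -, -⟩ := hD
  rw [mem_segment_iff' _ _ _ h1] at hz hz'
  rw [mem_segment_iff' _ _ _ h2] at hz2 hz2'
  obtain ⟨z1, z2, z3⟩ := hz
  obtain ⟨w1, w2, w3⟩ := hz2
  obtain ⟨z1', z2', z3'⟩ := hz'
  obtain ⟨w1', w2', w3'⟩ := hz2'
  by_cases hne : z.1 = z'.1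
  · ext
    · exact hne
    · rw [z3, z3', hne]
  · exfalso
    have hcb : c.1 < b.1 := lt_of_le_of_ne (w1.trans z2) d1.symm
    have hc' := hc (Or.inl ⟨h3, hcb⟩)
    apply hc'
    obtain ⟨p, q, hpq⟩ := g1_affine a b
    obtain ⟨r, s, hrs⟩ := g1_affine c e
    have hlc : hgt c e c.1 = c.2 := hgt_left c e h2.ne
    rw [← hlc, hrs, hpq]
    rw [hpq] at z3 z3'
    rw [hrs] at w3 w3'
    have e1 : (p - r) + (q - s) * z.1 = 0 := by linarith
    have e2 : (p - r) + (q - s) * z'.1 = 0 := by linarith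
    have e3 : (q - s) * (z.1 - z'.1) = 0 := by linarith
    have e4 : q - s = 0 := by
      rcases mul_eq_zero.1 e3 with h | h
      · exact h
      · exact absurd (sub_eq_zero.1 h) hne
    have e5 : p - r = 0 := by
      rw [e4] at e1
      linarith
    have : q = s := by linarith
    have : p = r := by linarith
    subst_vars
    rfl

theorem g2_uniq2 (a b c e : ℝ × ℝ) (hD : Dist4 a b c e) (h1 : a.1 < b.1) (h2 : c.1 < e.1)
    (ha : Btw c e a.1 → a.2 ≠ hgt c e a.1) (hc : Btw a b c.1 → c.2 ≠ hgt a b c.1)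
    (z z' : ℝ × ℝ) (hz : z ∈ segment ℝ a b) (hz2 : z ∈ segment ℝ c e) (hz' : z' ∈ segment ℝ a b)
    (hz2' : z' ∈ segment ℝ c e) : z = z' := by
  rcases lt_or_gt_of_ne hD.2.1 with h3 | h3
  · exact g2_uniq1 a b c e hD h1 h2 h3 hc z z' hz hz2 hz' hz2'
  · obtain ⟨d1, d2, d3, d4, d5, d6⟩ := hD
    exact g2_uniq1 c e a b ⟨d6, d2.symm, d4.symm, d3.symm, d5.symm, d1⟩ h2 h1 h3 ha z z' hz2 hz
      hz2' hz'

/-- Two segments in general position have at most one common point. Proof. By symmetry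
`a.1 < b.1`, `c.1 < e.1`, `a.1 < c.1`. Let `z ≠ z'` be common points; `z.1 ≠ z'.1` (`mem_segment_iff'`:
the abscissa determines the point). The affine functions `hgt a b`, `hgt c e` agree at two different
abscissas, so everywhere. `c.1 ≤ z.1 ≤ b.1`, so `c.1 < b.1` (they are different), i.e. `Btw a b c.1`,
and `hgt a b c.1 = hgt c e c.1 = c.2` contradicts `hc`. -/
theorem meet_unique (a b c e : ℝ × ℝ) (hD : Dist4 a b c e)
    (ha : Btw c e a.1 → a.2 ≠ hgt c e a.1) (hb : Btw c e b.1 → b.2 ≠ hgt c e b.1)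
    (hc : Btw a b c.1 → c.2 ≠ hgt a b c.1) (he : Btw a b e.1 → e.2 ≠ hgt a b e.1)
    (z z' : ℝ × ℝ) (hz : z ∈ segment ℝ a b) (hz2 : z ∈ segment ℝ c e) (hz' : z' ∈ segment ℝ a b)
    (hz2' : z' ∈ segment ℝ c e) : z = z' := by
  have hD' := hD
  obtain ⟨d1, d2, d3, d4, d5, d6⟩ := hD
  rcases lt_or_gt_of_ne d1 with h1 | h1 <;> rcases lt_or_gt_of_ne d6 with h2 | h2
  · exact g2_uniq2 a b c e hD' h1 h2 ha hc z z' hz hz2 hz' hz2'
  · rw [segment_symm] at hz2 hz2'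
    exact g2_uniq2 a b e c ⟨d1, d3, d2, d5, d4, d6.symm⟩ h1 h2
      (by rw [btw_symm, hgt_symm]; exact ha) he z z' hz hz2 hz' hz2'
  · rw [segment_symm] at hz hz'
    exact g2_uniq2 b a c e ⟨d1.symm, d4, d5, d2, d3, d6⟩ h1 h2 hb
      (by rw [btw_symm, hgt_symm]; exact hc) z z' hz hz2 hz' hz2'
  · rw [segment_symm] at hz hz' hz2 hz2'
    exact g2_uniq2 b a e c ⟨d1.symm, d5, d4, d3, d2, d6.symm⟩ h1 h2
      (by rw [btw_symm, hgt_symm]; exact hb) (by rw [btw_symm, hgt_symm]; exact he)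
      z z' hz hz2 hz' hz2'

end H46R
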