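import Pool.Agent.Lib.H46R.G0

/-! # H46R, G3: a projection along `d` with different abscissas -/

set_option autoImplicit false

namespace H46R

open H46K

/-- Step 1: a linear map onto the plane with kernel the line of `d`. Proof: if `d.1 ≠ 0` take
`v ↦ (v.2.1 - (d.2.1 / d.1) v.1, v.2.2 - (d.2.2 / d.1) v.1)`, and similarly if `d.2.1 ≠ 0` or
`d.2.2 ≠ 0`. -/
theorem exists_proj0 (d : P3) (hd : d ≠ 0) :
    ∃ π : P3 →ₗ[ℝ] ℝ × ℝ, ∀ v, π v = 0 ↔ ∃ r : ℝ, v = r • d := by
  obtain ⟨a, b, c⟩ := d
  by_cases ha : a = 0
  · by_cases hb : b = 0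
    · have hc : c ≠ 0 := by
        rintro rfl
        exact hd (by rw [ha, hb]; rfl)
      refine ⟨{ toFun := fun v => (v.1 - (a / c) * v.2.2, v.2.1 - (b / c) * v.2.2)
                map_add' := fun v w => by
                  ext
                  · simp; ring
                  · simp; ring
                map_smul' := fun r v => by
                  ext
                  · simp; ring
                  · simp; ring }, fun v => ?_⟩
      obtain ⟨x, y, z⟩ := v
      simp only [LinearMap.coe_mk, AddHom.coe_mk, Prod.mk_eq_zero, Prod.smul_mk, smul_eq_mul,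
        Prod.mk.injEq]
      constructor
      · rintro ⟨h1, h2⟩
        refine ⟨z / c, ?_, ?_, ?_⟩
        · have : x = a / c * z := by linarith
          rw [this]; ring
        · have : y = b / c * z := by linarith
          rw [this]; ring
        · field_simp
      · rintro ⟨r, rfl, rfl, rfl⟩
        constructor
        · field_simp; ring
        · field_simp; ring
    · refine ⟨{ toFun := fun v => (v.1 - (a / b) * v.2.1, v.2.2 - (c / b) * v.2.1)
                map_add' := fun v w => by
                  ext
                  · simp; ring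
                  · simp; ring
                map_smul' := fun r v => by
                  ext
                  · simp; ring
                  · simp; ring }, fun v => ?_⟩
      obtain ⟨x, y, z⟩ := v
      simp only [LinearMap.coe_mk, AddHom.coe_mk, Prod.mk_eq_zero, Prod.smul_mk, smul_eq_mul,
        Prod.mk.injEq]
      constructor
      · rintro ⟨h1, h2⟩
        refine ⟨y / b, ?_, ?_, ?_⟩
        · have : x = a / b * y := by linarith
          rw [this]; ring
        · field_simp
        · have : z = c / b * y := by linarith
          rw [this]; ring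
      · rintro ⟨r, rfl, rfl, rfl⟩
        constructor
        · field_simp; ring
        · field_simp; ring
  · refine ⟨{ toFun := fun v => (v.2.1 - (b / a) * v.1, v.2.2 - (c / a) * v.1)
              map_add' := fun v w => by
                ext
                · simp; ring
                · simp; ring
              map_smul' := fun r v => by
                ext
                · simp; ring
                · simp; ring }, fun v => ?_⟩
    obtain ⟨x, y, z⟩ := v
    simp only [LinearMap.coe_mk, AddHom.coe_mk, Prod.mk_eq_zero, Prod.smul_mk, smul_eq_mul,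
      Prod.mk.injEq]
    constructor
    · rintro ⟨h1, h2⟩
      refine ⟨x / a, ?_, ?_, ?_⟩
      · field_simp
      · have : y = b / a * x := by linarith
        rw [this]; ring
      · have : z = c / a * x := by linarith
        rw [this]; ring
    · rintro ⟨r, rfl, rfl, rfl⟩
      constructor
      · field_simp; ring
      · field_simp; ring

/-- the shear -/
def g3_shear (t : ℝ) : ℝ × ℝ →ₗ[ℝ] ℝ × ℝ where
  toFun v := (v.1 + t * v.2, v.2)
  map_add' v w := by
    ext
    · simp; ring
    · simp
  map_smul' r v := by
    ext
    · simp; ring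
    · simp

theorem g3_shear_apply (t : ℝ) (v : ℝ × ℝ) : g3_shear t v = (v.1 + t * v.2, v.2) := rfl

/-- Step 2. Proof. `π₀` from `exists_proj0`; compose with the shear `(a, b) ↦ (a + t b, b)`
(injective). For two different points `x`, `y` of `S` with `x - y` not a multiple of `d`,
`π₀ (x - y) = (a, b) ≠ 0` and `a + t b = 0` for at most one `t`; so all but finitely many `t` are good
(`Set.Finite` union over the pairs, `Set.Infinite` of `ℝ`: `Set.Infinite.exists_notMem_finset`). -/
theorem exists_proj (d : P3) (hd : d ≠ 0) (S : Set P3) (hS : S.Finite)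
    (h : ∀ x ∈ S, ∀ y ∈ S, x ≠ y → ∀ r : ℝ, x ≠ y + r • d) :
    ∃ π : P3 →ₗ[ℝ] ℝ × ℝ, (∀ v, π v = 0 ↔ ∃ r : ℝ, v = r • d) ∧
      ∀ x ∈ S, ∀ y ∈ S, x ≠ y → (π x).1 ≠ (π y).1 := by
  obtain ⟨π₀, h0⟩ := exists_proj0 d hd
  have hfin : ((fun p : P3 × P3 => -(π₀ (p.1 - p.2)).1 / (π₀ (p.1 - p.2)).2) '' (S ×ˢ S)).Finite :=
    (hS.prod hS).image _
  obtain ⟨t, ht⟩ := hfin.exists_notMem
  refine ⟨(g3_shear t).comp π₀, fun v => ?_, fun x hx y hy hxy he => ?_⟩
  · rw [← h0 v, LinearMap.comp_apply, g3_shear_apply]
    constructor
    · intro hv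
      rw [Prod.mk_eq_zero] at hv
      obtain ⟨h1, h2⟩ := hv
      rw [h2, mul_zero, add_zero] at h1
      exact Prod.ext h1 h2
    · intro hv
      rw [hv]
      simp
  · have hne : π₀ (x - y) ≠ 0 := by
      intro hz
      obtain ⟨r, hr⟩ := (h0 _).mp hz
      exact h x hx y hy hxy r (by rw [← hr]; abel)
    rw [LinearMap.comp_apply, LinearMap.comp_apply, g3_shear_apply, g3_shear_apply] at he
    simp only at he
    have h1 : (π₀ (x - y)).1 + t * (π₀ (x - y)).2 = 0 := by
      rw [map_sub, Prod.fst_sub, Prod.snd_sub]
      linarith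
    by_cases hq : (π₀ (x - y)).2 = 0
    · rw [hq, mul_zero, add_zero] at h1
      exact hne (Prod.ext h1 hq)
    · apply ht
      refine ⟨(x, y), ⟨hx, hy⟩, ?_⟩
      simp only
      rw [div_eq_iff hq]
      linarith

end H46R
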