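import Pool.Agent.Lib.H46R.G2

/-! # H46R, G4: `Over` and the crossings of the projections -/

set_option autoImplicit false

namespace H46R

open H46K

variable (π : P3 →ₗ[ℝ] ℝ × ℝ)

/-- Proof: `image_segment` (linear maps send segments onto segments). -/
theorem segment_proj (p q : P3) (z : ℝ × ℝ) :
    z ∈ segment ℝ (π p) (π q) ↔ ∃ x ∈ segment ℝ p q, π x = z := by
  have h := image_segment (𝕜 := ℝ) π.toAffineMap p q
  change π '' segment ℝ p q = segment ℝ (π p) (π q) at h
  rw [← h]
  rfl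

/-- no point of the line of direction `d` through `p` on the segment `u v`: no incidence in the
projection. Proof. `Btw` gives `(π p).1` strictly between, if `(π p).2 = hgt ..` then `π p` is on the
segment of the projections (`mem_segment_iff'`, or with `u`, `v` exchanged), so `π p = π x` with `x` on
the segment (`segment_proj`), `x - p = r • d`. -/
theorem no_inc (d : P3) (hπ : ∀ v, π v = 0 ↔ ∃ r : ℝ, v = r • d) (p u v : P3)
    (huv : (π u).1 ≠ (π v).1) (h : ∀ r : ℝ, p + r • d ∉ segment ℝ u v) :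
    Btw (π u) (π v) (π p).1 → (π p).2 ≠ hgt (π u) (π v) (π p).1 := by
  intro hb he
  have hmem : π p ∈ segment ℝ (π u) (π v) := by
    rcases hb with hb | hb
    · rw [mem_segment_iff' _ _ _ (hb.1.trans hb.2)]
      exact ⟨hb.1.le, hb.2.le, he⟩
    · rw [segment_symm, mem_segment_iff' _ _ _ (hb.1.trans hb.2), hgt_symm]
      exact ⟨hb.1.le, hb.2.le, he⟩
  obtain ⟨x, hx, hx2⟩ := (segment_proj π u v (π p)).1 hmem
  have h0 : π (x - p) = 0 := by rw [map_sub, hx2, sub_self]
  obtain ⟨r, hr⟩ := (hπ _).1 h0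
  apply h r
  rw [← hr, add_sub_cancel]
  exact hx

theorem g4_inj (p q x y : P3) (hpq : (π p).1 ≠ (π q).1) (hx : x ∈ segment ℝ p q)
    (hy : y ∈ segment ℝ p q) (h : π x = π y) : x = y := by
  obtain ⟨a, b, -, -, hab, rfl⟩ := hx
  obtain ⟨a', b', -, -, hab', rfl⟩ := hy
  have h1 := congrArg Prod.fst h
  simp only [map_add, map_smul, Prod.fst_add, Prod.smul_fst, smul_eq_mul] at h1
  have ha : a = 1 - b := by linarith
  have ha' : a' = 1 - b' := by linarith
  subst ha ha'
  have h2 : (b - b') * ((π q).1 - (π p).1) = 0 := by linear_combination h1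
  have h3 : b = b' := by
    rcases mul_eq_zero.1 h2 with h3 | h3
    · exact sub_eq_zero.1 h3
    · exact absurd (sub_eq_zero.1 h3).symm hpq
  rw [h3]

theorem g4_over_meet (d : P3) (hπ : ∀ v, π v = 0 ↔ ∃ r : ℝ, v = r • d) (p q u v : P3)
    (h : Over d (p, q) (u, v)) : Meet (π p) (π q) (π u) (π v) := by
  obtain ⟨x, hx, y, hy, r, -, hxy⟩ := h
  refine ⟨π x, (segment_proj π p q _).2 ⟨x, hx, rfl⟩, (segment_proj π u v _).2 ⟨y, hy, ?_⟩⟩
  have h0 : π (r • d) = 0 := (hπ _).2 ⟨r, rfl⟩
  rw [hxy, map_add, h0, add_zero]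

open Classical in
/-- Proof. `Over d s t` or `Over d t s` iff `Meet` of the projections: if they meet, `π x = π y`,
`x` on `s`, `y` on `t`, so `x - y = r • d` (`hπ`), `r ≠ 0` as the segments are disjoint (`hdis`);
conversely clear. They do not hold both: the common point `z` of the projections is unique
(`meet_unique`), so are the points `x` of `s` and `y` of `t` over it (`π` is injective on a segment
with different abscissas of the ends), `x = y + r • d`, `y = x + r' • d` with `r, r' > 0` gives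
`(r + r') • d = 0`, `d ≠ 0` as `Dist4` excludes `hπ` for `d = 0`... use `hd`. So the left side is the
indicator of `Meet`; then `cross_formula` with `no_inc` four times. -/
theorem over_formula (d : P3) (hd : d ≠ 0) (hπ : ∀ v, π v = 0 ↔ ∃ r : ℝ, v = r • d)
    (p q u v : P3) (hD : Dist4 (π p) (π q) (π u) (π v))
    (h1 : ∀ r : ℝ, p + r • d ∉ segment ℝ u v) (h2 : ∀ r : ℝ, q + r • d ∉ segment ℝ u v)
    (h3 : ∀ r : ℝ, u + r • d ∉ segment ℝ p q) (h4 : ∀ r : ℝ, v + r • d ∉ segment ℝ p q)
    (hdis : Disjoint (segment ℝ p q) (segment ℝ u v)) :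
    (if Over d (p, q) (u, v) then (1 : ZMod 2) else 0) +
        (if Over d (u, v) (p, q) then (1 : ZMod 2) else 0) =
      (ray (π p) (π q) (π u) + ray (π p) (π q) (π v)) +
        (ray (π u) (π v) (π p) + ray (π u) (π v) (π q)) +
        (lt2 (π p).1 (π u).1 + lt2 (π p).1 (π v).1 + (lt2 (π q).1 (π u).1 + lt2 (π q).1 (π v).1)) := by
  have hM : Meet (π p) (π q) (π u) (π v) ↔ Over d (p, q) (u, v) ∨ Over d (u, v) (p, q) := by
    constructor
    · rintro ⟨z, hz1, hz2⟩
      obtain ⟨x, hx, hxz⟩ := (segment_proj π p q z).1 hz1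
      obtain ⟨y, hy, hyz⟩ := (segment_proj π u v z).1 hz2
      have h0 : π (x - y) = 0 := by rw [map_sub, hxz, hyz, sub_self]
      obtain ⟨r, hr⟩ := (hπ _).1 h0
      rcases lt_trichotomy r 0 with hr0 | hr0 | hr0
      · right
        refine ⟨y, hy, x, hx, -r, by linarith, ?_⟩
        rw [neg_smul, ← hr]
        abel
      · exfalso
        rw [hr0, zero_smul, sub_eq_zero] at hr
        subst hr
        exact Set.disjoint_left.1 hdis hx hy
      · left
        refine ⟨x, hx, y, hy, r, hr0, ?_⟩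
        rw [← hr]
        abel
    · rintro (h | h)
      · exact g4_over_meet π d hπ p q u v h
      · exact (meet_comm _ _ _ _).1 (g4_over_meet π d hπ u v p q h)
  have hi1 := no_inc π d hπ p u v hD.2.2.2.2.2 h1
  have hi2 := no_inc π d hπ q u v hD.2.2.2.2.2 h2
  have hi3 := no_inc π d hπ u p q hD.1 h3
  have hi4 := no_inc π d hπ v p q hD.1 h4
  have hnb : ¬ (Over d (p, q) (u, v) ∧ Over d (u, v) (p, q)) := by
    rintro ⟨⟨x, hx, y, hy, r, hr, hxy⟩, ⟨y', hy', x', hx', r', hr', hxy'⟩⟩
    have hd0 : ∀ r : ℝ, π (r • d) = 0 := fun r => (hπ _).2 ⟨r, rfl⟩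
    have e1 : π x = π y := by rw [hxy, map_add, hd0, add_zero]
    have e2 : π y' = π x' := by rw [hxy', map_add, hd0, add_zero]
    have e3 : π x = π x' := meet_unique _ _ _ _ hD hi1 hi2 hi3 hi4 (π x) (π x')
      ((segment_proj π p q _).2 ⟨x, hx, rfl⟩) ((segment_proj π u v _).2 ⟨y, hy, e1.symm⟩)
      ((segment_proj π p q _).2 ⟨x', hx', rfl⟩) ((segment_proj π u v _).2 ⟨y', hy', e2⟩)
    have e4 : x = x' := g4_inj π p q x x' hD.1 hx hx' e3
    have e5 : y = y' := g4_inj π u v y y' hD.2.2.2.2.2 hy hy' (by rw [← e1, e3, e2])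
    rw [← e4, ← e5] at hxy'
    have e6 : (r + r') • d = 0 := by
      rw [add_smul]
      have : x = x + r' • d + r • d := by
        conv_lhs => rw [hxy, hxy']
      have h7 : x + (r • d + r' • d) = x + 0 := by
        rw [add_zero]
        conv_rhs => rw [this]
        abel
      exact add_left_cancel h7
    rcases smul_eq_zero.1 e6 with h | h
    · linarith
    · exact hd h
  rw [← cross_formula _ _ _ _ hD hi1 hi2 hi3 hi4]
  by_cases hA : Over d (p, q) (u, v) <;> by_cases hB : Over d (u, v) (p, q)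
  · exact absurd ⟨hA, hB⟩ hnb
  · rw [if_pos hA, if_neg hB, if_pos (hM.2 (Or.inl hA)), add_zero]
  · rw [if_neg hA, if_pos hB, if_pos (hM.2 (Or.inr hB)), zero_add]
  · rw [if_neg hA, if_neg hB, if_neg (fun h => (hM.1 h).elim hA hB), zero_add]

end H46R
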