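import Pool.Agent.Lib.H46R.G0
import Pool.Agent.Lib.H46K.A2

/-! # H46R, G5: summation over the sides of two arcs -/

set_option autoImplicit false

namespace H46R

open H46K

/-- Telescoping modulo 2. Proof: induction on `l` (`osides (a :: c :: l) = (a, c) :: osides (c :: l)`,
`H46K.A1_osides_cons`), `g c + g c = 0`. -/
theorem osides_sum (g : P3 → ZMod 2) (a b : P3) (l : List P3) :
    ((osides (a :: (l ++ [b]))).map fun s => g s.1 + g s.2).sum = g a + g b := by
  induction l generalizing a with
  | nil =>
    have h1 : osides (a :: ([] ++ [b])) = [(a, b)] := rfl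
    rw [h1]
    simp
  | cons c l ih =>
    have h1 : osides (a :: (c :: l ++ [b])) = (a, c) :: osides (c :: (l ++ [b])) := rfl
    rw [h1, List.map_cons, List.sum_cons, ih c]
    have h2 : g c + g c = 0 := CharTwo.add_self_eq_zero (g c)
    linear_combination h2

/-- the two ends of a side are in the list. -/
theorem mem_of_osides (l : List P3) (s : P3 × P3) (h : s ∈ osides l) : s.1 ∈ l ∧ s.2 ∈ l := by
  unfold osides at h
  have h1 := List.of_mem_zip (a := s.1) (b := s.2) h
  exact ⟨h1.1, List.mem_of_mem_tail h1.2⟩

/-- a side is part of the arc. Proof: induction (`arcSet` of `a :: b :: l`). -/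
theorem segment_subset_arcSet (l : List P3) (s : P3 × P3) (h : s ∈ osides l) :
    segment ℝ s.1 s.2 ⊆ arcSet l := by
  induction l with
  | nil => simp [osides] at h
  | cons a l ih =>
    cases l with
    | nil => simp [osides] at h
    | cons b l =>
      rw [A1_osides_cons, List.mem_cons] at h
      rcases h with h | h
      · subst h
        exact Set.subset_union_left
      · exact (ih h).trans Set.subset_union_right

/-- a listed point is on the arc. -/
theorem mem_arcSet (l : List P3) (x : P3) (h : x ∈ l) : x ∈ arcSet l := by
  induction l with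
  | nil => simp at h
  | cons a l ih =>
    cases l with
    | nil =>
      rw [List.mem_singleton] at h
      subst h
      exact Set.mem_singleton _
    | cons b l =>
      rw [List.mem_cons] at h
      rcases h with h | h
      · subst h
        exact Or.inl (left_mem_segment ℝ _ _)
      · exact Or.inr (ih h)

/-- a listed point of a list with at least two entries is an end of a side. -/
theorem exists_side (l : List P3) (hl : 2 ≤ l.length) (x : P3) (h : x ∈ l) :
    ∃ s ∈ osides l, x = s.1 ∨ x = s.2 := by
  induction l with
  | nil => simp at h
  | cons a l ih =>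
    cases l with
    | nil => simp at hl
    | cons b l =>
      rw [A1_osides_cons]
      rw [List.mem_cons] at h
      rcases h with h | h
      · exact ⟨(a, b), List.mem_cons_self, Or.inl h⟩
      · cases l with
        | nil =>
          rw [List.mem_singleton] at h
          exact ⟨(a, b), List.mem_cons_self, Or.inr h⟩
        | cons c l =>
          obtain ⟨s, hs, h1⟩ := ih (by simp) h
          exact ⟨s, List.mem_cons_of_mem _ hs, h1⟩

/-- exchange of two list sums -/
theorem g5_comm {α β : Type*} (A : List α) (B : List β) (F : β → α → ZMod 2) :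
    (B.map fun t => (A.map fun s => F t s).sum).sum =
      (A.map fun s => (B.map fun t => F t s).sum).sum := by
  induction B with
  | nil => simp
  | cons t B ih =>
    rw [List.map_cons, List.sum_cons, ih, ← List.sum_map_add]
    simp only [List.map_cons, List.sum_cons]

open Classical in
/-- Proof. `ov d A B + ov d B A` is the sum over `s` in `A`, `t` in `B` of
`[Over d s t] + [Over d t s]` (exchange of two list sums: `List.sum_map_comm`-type lemma, by
induction), insert `hform` and split; `∑ t, (g s t.1 + g s t.2) = g s c + g s e` by `osides_sum`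
(for `A = osides (a :: (l ++ [b]))`, `B = osides (c :: (m ++ [e]))`). -/
theorem ov_formula (d : P3) (a b c e : P3) (l m : List P3) (R : P3 × P3 → P3 → ZMod 2)
    (O : P3 → P3 → ZMod 2)
    (hform : ∀ s ∈ osides (a :: (l ++ [b])), ∀ t ∈ osides (c :: (m ++ [e])),
      (if Over d s t then (1 : ZMod 2) else 0) + (if Over d t s then (1 : ZMod 2) else 0) =
        (R s t.1 + R s t.2) + (R t s.1 + R t s.2) +
          (O s.1 t.1 + O s.1 t.2 + (O s.2 t.1 + O s.2 t.2))) :
    ov d (osides (a :: (l ++ [b]))) (osides (c :: (m ++ [e]))) +
        ov d (osides (c :: (m ++ [e]))) (osides (a :: (l ++ [b]))) =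
      ((osides (a :: (l ++ [b]))).map fun s => R s c + R s e).sum +
        ((osides (c :: (m ++ [e]))).map fun t => R t a + R t b).sum +
        (O a c + O a e + (O b c + O b e)) := by
  have hA := fun g : P3 → ZMod 2 => osides_sum g a b l
  have hB := fun g : P3 → ZMod 2 => osides_sum g c e m
  generalize osides (a :: (l ++ [b])) = A at *
  generalize osides (c :: (m ++ [e])) = B at *
  have h1 : ov d B A = (A.map fun s => (B.map fun t =>
      if Over d t s then (1 : ZMod 2) else 0).sum).sum := by
    unfold ov
    exact g5_comm A B _
  have h2 : ov d A B + ov d B A = (A.map fun s => (B.map fun t =>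
      ((R s t.1 + R s t.2) + (R t s.1 + R t s.2) +
          (O s.1 t.1 + O s.1 t.2 + (O s.2 t.1 + O s.2 t.2)))).sum).sum := by
    rw [h1]
    unfold ov
    rw [← List.sum_map_add]
    congr 1
    apply List.map_congr_left
    intro s hs
    rw [← List.sum_map_add]
    congr 1
    apply List.map_congr_left
    intro t ht
    exact hform s hs t ht
  rw [h2]
  have h3 : ∀ s : P3 × P3, (B.map fun t =>
      ((R s t.1 + R s t.2) + (R t s.1 + R t s.2) +
          (O s.1 t.1 + O s.1 t.2 + (O s.2 t.1 + O s.2 t.2)))).sum =
      (R s c + R s e) + (B.map fun t => R t s.1 + R t s.2).sum +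
        ((O s.1 c + O s.2 c) + (O s.1 e + O s.2 e)) := by
    intro s
    rw [List.sum_map_add, List.sum_map_add, hB (fun x => R s x)]
    congr 1
    rw [← hB (fun x => O s.1 x + O s.2 x)]
    congr 1
    apply List.map_congr_left
    intro t _
    ring
  simp only [h3]
  rw [List.sum_map_add, List.sum_map_add]
  congr 1
  · congr 1
    rw [← g5_comm]
    congr 1
    apply List.map_congr_left
    intro t _
    exact hA (fun x => R t x)
  · have h4 := hA (fun x => O x c + O x e)
    rw [← h4]
    congr 1
    apply List.map_congr_left
    intro s _
    ring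

end H46R
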