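import Pool.Agent.Lib.H46R.G3
import Pool.Agent.Lib.H46R.G4
import Pool.Agent.Lib.H46R.G5

/-! # H46R, G6: general position facts for a generic direction -/

set_option autoImplicit false

namespace H46R

open H46K

variable {V : Type} [Fintype V] [DecidableEq V] {G : SimpleGraph V}

/-- the points of all arcs -/
def pts (f : SpatialGraph G) : Set P3 := {x | ∃ u v, G.Adj u v ∧ x ∈ f.arc u v}

/-- Proof: finite union over `u`, `v` of the finite sets of entries of lists. -/
theorem pts_finite (f : SpatialGraph G) : (pts f).Finite := by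
  have h : pts f ⊆ ⋃ u : V, ⋃ v : V, {x | x ∈ f.arc u v} := by
    rintro x ⟨u, v, -, hx⟩
    exact Set.mem_iUnion₂.2 ⟨u, v, hx⟩
  refine Set.Finite.subset ?_ h
  exact Set.finite_iUnion fun u => Set.finite_iUnion fun v => List.finite_toSet _

/-- Proof. `x` in the arc `u v`, `y` in the arc `u' v'`, `x = y + r • d`: `x` is an end of a side `s` of
its arc (`exists_side`), so `y + r • d ∈ segment s`, and `hd` gives `r = 0`, `x = y`. -/
theorem pts_ne (f : SpatialGraph G) (d : P3) (hd : Generic f d) :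
    ∀ x ∈ pts f, ∀ y ∈ pts f, x ≠ y → ∀ r : ℝ, x ≠ y + r • d := by
  rintro x ⟨u, v, huv, hx⟩ y ⟨u', v', huv', hy⟩ hxy r hr
  obtain ⟨s, hs, h⟩ := exists_side (f.arc u v) (by simp [SpatialGraph.arc]) x hx
  have h1 : y + r • d ∈ segment ℝ s.1 s.2 := by
    rw [← hr]
    rcases h with h | h
    · rw [h]
      exact left_mem_segment ℝ _ _
    · rw [h]
      exact right_mem_segment ℝ _ _
  obtain ⟨h2, -⟩ := hd.2 u' v' u v huv' huv y hy s hs r h1
  apply hxy
  rw [hr, h2, zero_smul, add_zero]

/-- the arcs of disjoint edges are disjoint (`f.disj`: a common point is a common end vertex). -/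
theorem arcs_disj (f : SpatialGraph G) {a b c e : V} (hab : G.Adj a b) (hce : G.Adj c e)
    (h1 : a ≠ c) (h2 : a ≠ e) (h3 : b ≠ c) (h4 : b ≠ e) :
    Disjoint (arcSet (f.arc a b)) (arcSet (f.arc c e)) := by
  rw [Set.disjoint_left]
  intro x hx hx'
  have hne : s(a, b) ≠ s(c, e) := by
    intro h
    rw [Sym2.eq_iff] at h
    rcases h with ⟨h, -⟩ | ⟨h, -⟩
    · exact h1 h
    · exact h2 h
  obtain ⟨w, hw, hw', -⟩ := f.disj a b c e hab hce hne x ⟨hx, hx'⟩
  rcases hw with rfl | rfl <;> rcases hw' with rfl | rfl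
  · exact h1 rfl
  · exact h2 rfl
  · exact h3 rfl
  · exact h4 rfl

/-- Proof: `hd` gives `x = s.1` or `x = s.2`, a common point of the two disjoint arcs. -/
theorem no_line (f : SpatialGraph G) (d : P3) (hd : Generic f d) {a b c e : V} (hab : G.Adj a b)
    (hce : G.Adj c e) (h1 : a ≠ c) (h2 : a ≠ e) (h3 : b ≠ c) (h4 : b ≠ e) (x : P3)
    (hx : x ∈ f.arc a b) (s : P3 × P3) (hs : s ∈ osides (f.arc c e)) (r : ℝ) :
    x + r • d ∉ segment ℝ s.1 s.2 := by
  intro h
  obtain ⟨-, h5⟩ := hd.2 a b c e hab hce x hx s hs r h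
  have h6 := mem_of_osides (f.arc c e) s hs
  have h7 : x ∈ f.arc c e := by
    rcases h5 with h5 | h5
    · rw [h5]
      exact h6.1
    · rw [h5]
      exact h6.2
  exact Set.disjoint_left.1 (arcs_disj f hab hce h1 h2 h3 h4) (mem_arcSet _ _ hx) (mem_arcSet _ _ h7)

theorem g6_side_ne (l : List P3) (hl : IsSimple l) (s : P3 × P3) (hs : s ∈ osides l) :
    s.1 ≠ s.2 := by
  induction l with
  | nil => simp [osides] at hs
  | cons a l ih =>
    cases l with
    | nil => simp [osides] at hs
    | cons b l =>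
      obtain ⟨h1, -, h3⟩ := hl
      rw [osides, List.tail_cons, List.zip_cons_cons, List.mem_cons] at hs
      rcases hs with hs | hs
      · rw [hs]
        exact h1
      · exact ih h3 hs

/-- The two ends of a side of an arc are different. Proof: `f.simple` (`IsSimple` says consecutive
entries differ; induction on the list). -/
theorem side_ne (f : SpatialGraph G) {a b : V} (hab : G.Adj a b) (s : P3 × P3)
    (hs : s ∈ osides (f.arc a b)) : s.1 ≠ s.2 := by
  exact g6_side_ne _ (f.simple a b hab) s hs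

end H46R
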