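import Pool.Agent.Lib.H46R.G5

/-! # H46R, X1: in a simple arc a listed point on a side is an end of this side -/

set_option autoImplicit false

namespace H46R

open H46K

/-- Proof: induction on `l`. `l = a :: b :: l'`, `IsSimple`: `a ≠ b`, the segment `a b` meets
`arcSet (b :: l')` only in `b`. `x = a`, `s = (a, b)`: clear. `x = a`, `s` a side of `b :: l'`: `a` is in
`segment a b` and in `arcSet (b :: l')` (`segment_subset_arcSet`), so `a = b`: contradiction.
`x` in `b :: l'`, `s = (a, b)`: `x ∈ arcSet (b :: l')` (`mem_arcSet`), so `x = b`. Otherwise the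
induction hypothesis. -/
theorem simple_side (l : List P3) (hl : IsSimple l) (x : P3) (hx : x ∈ l) (s : P3 × P3)
    (hs : s ∈ osides l) (h : x ∈ segment ℝ s.1 s.2) : x = s.1 ∨ x = s.2 := by
  induction l with
  | nil => exact absurd hx (by simp)
  | cons a l ih =>
    cases l with
    | nil =>
      rw [A1_osides_single] at hs
      exact absurd hs (by simp)
    | cons b l =>
      obtain ⟨hab, hmeet, hl'⟩ := hl
      rw [A1_osides_cons] at hs
      rcases List.mem_cons.1 hs with rfl | hs'
      · rcases List.mem_cons.1 hx with rfl | hx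
        · exact Or.inl rfl
        · exact Or.inr (hmeet ⟨h, mem_arcSet _ _ hx⟩)
      · rcases List.mem_cons.1 hx with rfl | hx'
        · exact absurd (hmeet ⟨left_mem_segment ℝ x b, segment_subset_arcSet _ _ hs' h⟩) hab
        · exact ih hl' hx' hs'

/-- Proof: `x ∈ arcSet` of both arcs. If the two edges are the same, the arcs are equal or reversed
(`H46K.arc_symm`) with the same entries, and `simple_side` for the arc of `s` applies (`f.simple`). If
not, `f.disj` gives `x = f.pt w` with `w = u'` or `w = v'`, which is an entry of the arc of `s`, and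
`simple_side` applies again. -/
theorem point_side {V : Type} {G : SimpleGraph V} (f : SpatialGraph G) {u v u' v' : V}
    (h : G.Adj u v) (h' : G.Adj u' v') (x : P3) (hx : x ∈ f.arc u v) (s : P3 × P3)
    (hs : s ∈ osides (f.arc u' v')) (hxs : x ∈ segment ℝ s.1 s.2) : x = s.1 ∨ x = s.2 := by
  have hsimp : IsSimple (f.arc u' v') := f.simple u' v' h'
  refine simple_side _ hsimp x ?_ s hs hxs
  by_cases he : s(u, v) = s(u', v')
  · rcases Sym2.eq_iff.1 he with ⟨rfl, rfl⟩ | ⟨rfl, rfl⟩
    · exact hx
    · rw [arc_symm f h'] at hx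
      exact List.mem_reverse.1 hx
  · have h1 : x ∈ arcSet (f.arc u v) := mem_arcSet _ _ hx
    have h2 : x ∈ arcSet (f.arc u' v') := segment_subset_arcSet _ _ hs hxs
    obtain ⟨w, _, hw, rfl⟩ := f.disj u v u' v' h h' he x ⟨h1, h2⟩
    rcases hw with rfl | rfl
    · exact List.mem_cons_self
    · show f.pt w ∈ f.pt u' :: (f.mid u' w ++ [f.pt w])
      simp

end H46R
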